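import Mathlib
import Pool.Agent.H94.AC.Defs

/-!
# Pairs of insulating cracks of arbitrary genus (MP_0ee698_an): definitions
-/

open MeasureTheory Set Filter Topology Metric
open scoped ENNReal NNReal ContDiff RealInnerProductSpace

namespace Pool.Agent.H92.CK

open Pool.Agent.H94.IC Pool.Agent.H94.AC

/-- the interior points of `S` at which `S` is real-analytic -/
def AnaPts (S : Set E) : Set E := {p | p ∈ intPts S ∧ AChart S p}

/-- `L` is empty or a smooth closed disc contained in `S` -/
def DiscIn (Ω S L : Set E) : Prop := L = ∅ ∨ (IsDisc Ω L ∧ L ⊆ S)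

/-- tame cracks: each connected part of the set of the real-analytic interior points is contained in a connected part
which is dense in `S` off a closed disc contained in `S`; in particular, cracks which are nowhere real-analytic and
cracks for which the set of the real-analytic interior points is connected and dense -/
def Tame (Ω S : Set E) : Prop := ∀ q ∈ AnaPts S, ∃ C ⊆ AnaPts S, IsPreconnected C ∧ q ∈ C ∧
  ∃ L, DiscIn Ω S L ∧ S ⊆ closure C ∪ L

/-- near each point of the edge there are open pieces of the crack without real-analytic points -/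
def RoughEdge (S : Set E) : Prop := ∀ q ∈ edgePts S, q ∈ closure (intPts S \ closure (AnaPts S))

/-- the real-analytic points of `S` which are joined to a point off `S'` by a connected set of such points -/
def Reach (S S' : Set E) : Set E := {p | ∃ C ⊆ AnaPts S, IsPreconnected C ∧ p ∈ C ∧ (C \ S').Nonempty}

/-- off a closed disc contained in `S` the set `S \ S'` together with the analytic parts of `S` which it reaches is
dense in `S` -/
def Spread (Ω S S' : Set E) : Prop := ∃ L, DiscIn Ω S L ∧ S ⊆ closure ((S \ S') ∪ Reach S S') ∪ L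

/-- the normalised boundary measurements of `S` and `S'` agree for the profiles `ψ` -/
def Same {N : ℕ} (Ω : Set E) (σ : Measure E) (ν : E → E) (ψ : Fin N → E → ℝ) (S S' : Set E) : Prop :=
  ∃ (u u' : Fin N → E → ℝ) (F F' : Fin N → E → E) (τ τ' : Fin N → E → ℝ),
    (∀ i, Sol Ω S σ ν (ψ i) (u i) (F i) (τ i)) ∧ (∀ i, ∫ x, τ i x ∂σ = 0) ∧
    (∀ i, Sol Ω S' σ ν (ψ i) (u' i) (F' i) (τ' i)) ∧ (∀ i, ∫ x, τ' i x ∂σ = 0) ∧ ∀ i, τ i =ᵐ[σ] τ' i

/-- THE THEOREM -/
def MainPairs : Prop := ∀ (Ω : Set E) (σ : Measure E) (ν : E → E), Dom Ω → IsSurf Ω σ ν →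
  ∃ (N : ℕ) (ψ : Fin N → E → ℝ), (∀ i, IsProfile σ (ψ i)) ∧ ∀ S S' : Set E, IsCrack Ω S → Same Ω σ ν ψ S S' →
    (IsDisc Ω S' → S = S') ∧
    (IsCrack Ω S' → intPts S \ closure (AnaPts S) ⊆ S' ∧ (Tame Ω S → S ⊆ S') ∧
      (Tame Ω S ∧ (Tame Ω S' ∨ RoughEdge S' ∨ edgePts S' ⊆ S) ∨ edgePts S = edgePts S' ∨ Spread Ω S S' → S = S'))

end Pool.Agent.H92.CK
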