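import Mathlib
import Pool.Agent.H94.AC.Targets

/-!
# Pairs of insulating cracks of arbitrary genus (MP_0ee698_an): definitions and targets

Modules: one `Prop` `T_XX` per module.
-/

open MeasureTheory Set Filter Topology Metric
open scoped ENNReal NNReal ContDiff RealInnerProductSpace

namespace Pool.Agent.H92.CK

open Pool.Agent.H94.IC Pool.Agent.H94.AC

/-! ## Definitions for the theorem -/

/-- in its interior the crack is real-analytic everywhere or nowhere -/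
def Pure (S : Set E) : Prop := (∀ p ∈ intPts S, AChart S p) ∨ (∀ p ∈ intPts S, ¬ AChart S p)

/-- no open piece of `S` is contained in `S'`, or a closed disc `L` contained in one of the cracks contains all
open pieces of `S` contained in `S'` and all open pieces of `S'` contained in `S` -/
def CommonSmall (Ω S S' : Set E) : Prop :=
  (∀ p ∈ intPts S, p ∈ closure (S \ S')) ∨
  ∃ L : Set E, IsDisc Ω L ∧ (L ⊆ S ∨ L ⊆ S') ∧ (∀ p ∈ intPts S, p ∉ L → p ∈ closure (S \ S')) ∧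
    ∀ p ∈ intPts S', p ∉ L → p ∈ closure (S' \ S)

/-! ## A: real-analytic points -/

/-- Osgood: continuous functions which are holomorphic on complex lines are analytic -/
def T_OSG : Prop := ∀ (U : Set C3) (F : C3 → ℂ), IsOpen U → GH U F → AnalyticOnNhd ℂ F U

/-- lowest order of vanishing -/
def T_ORD : Prop := ∀ (f : E → ℝ) (p : E) (r : ℝ) (S : Set E), 0 < r → AnalyticOnNhd ℝ f (ball p r) → p ∈ S →
  (∀ x ∈ S, x ∈ ball p r → f x = 0) → (∃ x ∈ ball p r, f x ≠ 0) → ∃ q ∈ S, q ∈ ball p r ∧ ∃ g : E → ℝ,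
    AnalyticOnNhd ℝ g (ball p r) ∧ (∀ x ∈ S, x ∈ ball p r → g x = 0) ∧ fderiv ℝ g q ≠ 0

/-- a smooth surface contained in the regular zero set of an analytic function is analytic -/
def T_ACH : Prop := ∀ (S : Set E) (q : E) (Ψ : OpenPartialHomeomorph E E) (g : E → ℝ), q ∈ Ψ.source →
  (Ψ q) 2 = 0 → ContDiffOn ℝ ∞ Ψ Ψ.source → ContDiffOn ℝ ∞ Ψ.symm Ψ.target →
  (∀ x ∈ Ψ.source, x ∈ S ↔ (Ψ x) 2 = 0) → AnalyticAt ℝ g q → (∀ᶠ x in 𝓝 q, x ∈ S → g x = 0) →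
  fderiv ℝ g q ≠ 0 → AChart S q

/-- a smooth surface contained in an analytic set is real-analytic at some points -/
def T_ANC : Prop := ∀ (Y S : Set E) (Ψ : OpenPartialHomeomorph E E) (p : E), p ∈ Ψ.source → (Ψ p) 2 = 0 →
  ContDiffOn ℝ ∞ Ψ Ψ.source → ContDiffOn ℝ ∞ Ψ.symm Ψ.target → (∀ x ∈ Ψ.source, x ∈ S ↔ (Ψ x) 2 = 0) →
  (∀ x ∈ Ψ.source, x ∈ S → x ∈ Y) → AN Y p → ∃ q ∈ Ψ.source, q ∈ S ∧ AChart S q

/-- equal measurements: nothing is enclosed, and the potentials agree off the two cracks -/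
def T_EQN : Prop := ∀ (N : ℕ) (Ω S S' : Set E) (σ : Measure E) (ν : E → E) (ψ h h' τ τ' : Fin N → E → ℝ)
  (i0 : Fin N), Dom Ω → IsSurf Ω σ ν → IsCrack Ω S → IsCrack Ω S' → ψ i0 = (fun x => (ν x) 0) →
  (∀ i, Harm (Ω \ S) (h i)) → (∀ i, Sol Ω S σ ν (ψ i) (h i) (gr (h i)) (τ i)) →
  (∀ i, Harm (Ω \ S') (h' i)) → (∀ i, Sol Ω S' σ ν (ψ i) (h' i) (gr (h' i)) (τ' i)) →
  (∀ i, τ i =ᵐ[σ] τ' i) → Enc Ω S S' = ∅ ∧ ∀ i, ∀ x ∈ Ω, x ∉ S → x ∉ S' → h i x = h' i x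

/-- a crack which is nowhere analytic is contained in every crack with the same measurements -/
def T_NAC : Prop := ∀ (N : ℕ) (Ω S S' : Set E) (σ : Measure E) (ν : E → E) (ψ h h' τ τ' : Fin N → E → ℝ),
  Dom Ω → IsSurf Ω σ ν → Fam Ω σ ν ψ → IsCrack Ω S → IsCrack Ω S' →
  (∀ i, Harm (Ω \ S) (h i)) → (∀ i, Sol Ω S σ ν (ψ i) (h i) (gr (h i)) (τ i)) →
  (∀ i, Harm (Ω \ S') (h' i)) → (∀ i, Sol Ω S' σ ν (ψ i) (h' i) (gr (h' i)) (τ' i)) →
  (∀ i, ∀ x ∈ Ω, x ∉ S → x ∉ S' → h i x = h' i x) → (∀ p ∈ intPts S, ¬ AChart S p) → S ⊆ S'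

/-! ## B: cracks with the same edge -/

/-- signs -/
noncomputable def sgu (t : ℝ) : ℤˣ := if 0 < t then 1 else -1

/-- `e` is a sign function of the surface `S` in the ball `ball p r`: constant if the ball does not meet `S`,
changing the sign across `S` if `p` is an interior point of `S` -/
def LSg (S : Set E) (e : E → ℤˣ) (p : E) (r : ℝ) : Prop := 0 < r ∧
  ((Disjoint (ball p r) S ∧ ∃ c : ℤˣ, ∀ y ∈ ball p r, e y = c) ∨
  ∃ Ψ : OpenPartialHomeomorph E E, ball p r ⊆ Ψ.source ∧ (Ψ p) 2 = 0 ∧ ContDiffOn ℝ ∞ Ψ Ψ.source ∧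
    ContDiffOn ℝ ∞ Ψ.symm Ψ.target ∧ (∀ x ∈ Ψ.source, x ∈ S ↔ (Ψ x) 2 = 0) ∧
    ∃ c : ℤˣ, ∀ y ∈ ball p r, y ∉ S → e y = c * sgu ((Ψ y) 2))

/-- near `p` the function `s` is the product of a sign function of `S` and a sign function of `S'` -/
def LSec (S S' : Set E) (s : E → ℤˣ) (p : E) : Prop := ∃ (r : ℝ) (e e' : E → ℤˣ), LSg S e p r ∧ LSg S' e' p r ∧
  ∀ y ∈ ball p r, y ∉ S → y ∉ S' → s y = e y * e' y

/-- sign functions are unique up to sign, exist off the edge, and are sign functions at the nearby points -/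
def T_LSU : Prop := (∀ (S : Set E) (e e' : E → ℤˣ) (p : E) (r r' : ℝ), LSg S e p r → LSg S e' p r' →
    ∃ t > 0, ∃ c : ℤˣ, ∀ y ∈ ball p t, y ∉ S → e y = c * e' y) ∧
  (∀ (Ω S : Set E) (p : E), IsCrack Ω S → p ∉ edgePts S → ∃ (e : E → ℤˣ) (r : ℝ), LSg S e p r) ∧
  (∀ (S : Set E) (e : E → ℤˣ) (p q : E) (r : ℝ), IsClosed S → LSg S e p r → q ∈ ball p r →
    ∃ r' : ℝ, LSg S e q r')

/-- the angular lemma: local sections exist at common points of the edges -/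
def T_ANG : Prop := ∀ (S S' : Set E) (x : E), IsClosed S → IsClosed S' → FlatChart S x True →
  FlatChart S' x True → (∃ r > 0, ∀ y ∈ ball x r, (y ∈ edgePts S ↔ y ∈ edgePts S')) →
  ∃ r > 0, ∃ s : E → ℤˣ, ∀ p ∈ ball x r, p ∉ edgePts S → LSec S S' s p

/-- the complement of the edge is locally connected at the points of the edge -/
def T_PUN : Prop := ∀ (S : Set E) (x : E), FlatChart S x True → ∀ N ∈ 𝓝 x, ∃ W : Set E, IsOpen W ∧ x ∈ W ∧
  W ⊆ N ∧ IsPreconnected (W \ edgePts S)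

/-- global section for two cracks with the same edge -/
def T_SCT : Prop := ∀ Ω S S' : Set E, IsCrack Ω S → IsCrack Ω S' → edgePts S = edgePts S' →
  ∃ s : E → ℤˣ, ∀ p : E, p ∉ edgePts S → LSec S S' s p

/-- flux free sets which touch the boundary, for cracks of any genus -/
def T_FMB : Prop := ∀ (Ω S : Set E) (σ : Measure E) (ν : E → E) (ψ h τ : E → ℝ) (D K : Set E), IsOpen Ω →
  Bornology.IsBounded Ω → IsSurf Ω σ ν → IsCrack Ω S → MemLp ψ 2 σ → Harm (Ω \ S) h →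
  Sol Ω S σ ν ψ h (gr h) τ → IsOpen D → Bornology.IsBounded D → IsCompact K → K ⊆ Ω → S ⊆ K →
  (∀ x ∈ closure D, x ∉ K → x ∈ D) → FF D (gr h) (Ω \ S) → ∫ x in D, ψ x ∂σ = 0

/-- sets bounded by the two cracks are flux free -/
def T_FFG : Prop := ∀ (Ω S S' D : Set E) (h h' : E → ℝ), Dom Ω → IsCrack Ω S → IsCompact S' → S' ⊆ Ω →
  WN Ω S h → Harm (Ω \ S') h' → (∀ x ∈ Ω, x ∉ S → x ∉ S' → h x = h' x) → IsOpen D →
  (∀ x ∈ closure D, x ∉ S → x ∉ S' → x ∈ D) → FF D (gr h') (Ω \ S')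

/-- two cracks with the same edge and the same measurements coincide -/
def T_SED : Prop := ∀ (Ω S S' : Set E) (σ : Measure E) (ν : E → E) (h h' τ τ' : Fin 2 → E → ℝ), Dom Ω →
  IsSurf Ω σ ν → IsCrack Ω S → IsCrack Ω S' → edgePts S = edgePts S' →
  (∀ i, Harm (Ω \ S) (h i)) → (∀ i, Sol Ω S σ ν (![psi0 Ω σ ν, fun x => (ν x) 0] i) (h i) (gr (h i)) (τ i)) →
  (∀ i, Harm (Ω \ S') (h' i)) → (∀ i, Sol Ω S' σ ν (![psi0 Ω σ ν, fun x => (ν x) 0] i) (h' i) (gr (h' i)) (τ' i)) →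
  (∀ i, ∀ x ∈ Ω, x ∉ S → x ∉ S' → h i x = h' i x) → S = S'

/-! ## C: continuity of the jump, removal of the part without jump -/

/-- all second derivatives are square integrable up to the flat part -/
def T_H2W : Prop := ∀ (A : E → Matrix (Fin 3) (Fin 3) ℝ) (r : ℝ) (w : E → ℝ), HalfSol A r w →
  ∀ k l : Fin 3, MemLp (pd k (pd l w)) 2 (volume.restrict (HB (3 * r / 4)))

/-- Hölder continuity up to the flat part -/
def T_MOR : Prop := ∀ (r : ℝ) (w : E → ℝ), 0 < r → ContDiffOn ℝ ∞ w (HB r) →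
  MemLp (gr w) 2 (volume.restrict (HB r)) → (∀ k l : Fin 3, MemLp (pd k (pd l w)) 2 (volume.restrict (HB r))) →
  ∃ C : ℝ, ∀ x ∈ HB (r / 8), ∀ y ∈ HB (r / 8), |w x - w y| ≤ C * Real.sqrt ‖x - y‖

/-- continuity up to the crack from both sides, in a chart -/
def T_TSC : Prop := ∀ (Ω S : Set E) (h : E → ℝ) (Ψ : OpenPartialHomeomorph E E) (p : E), IsOpen Ω →
  Bornology.IsBounded Ω → IsClosed S → WN Ω S h → p ∈ Ψ.source → (Ψ p) 2 = 0 → Ψ.source ⊆ Ω →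
  ContDiffOn ℝ ∞ Ψ Ψ.source → ContDiffOn ℝ ∞ Ψ.symm Ψ.target → (∀ x ∈ Ψ.source, x ∈ S ↔ (Ψ x) 2 = 0) →
  ∃ r > 0, closedBall p r ⊆ Ψ.source ∧ ∃ C : ℝ, ∀ x ∈ ball p r, ∀ y ∈ ball p r, 0 < (Ψ x) 2 * (Ψ y) 2 →
    |h x - h y| ≤ C * Real.sqrt (dist x y)

/-- functions continuous across the surface have no jump -/
def T_CNJ : Prop := ∀ (Ω S : Set E) (h : E → ℝ) (Ψ : OpenPartialHomeomorph E E) (p : E) (r C : ℝ), IsOpen Ω →
  IsClosed S → volume S = 0 → ContDiffOn ℝ ∞ h (Ω \ S) → MemLp h 2 (volume.restrict Ω) →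
  MemLp (gr h) 2 (volume.restrict Ω) → 0 < r → closedBall p r ⊆ Ψ.source → Ψ.source ⊆ Ω →
  ContDiffOn ℝ ∞ Ψ Ψ.source → ContDiffOn ℝ ∞ Ψ.symm Ψ.target → (∀ x ∈ Ψ.source, x ∈ S ↔ (Ψ x) 2 = 0) →
  (∀ x ∈ ball p r, ∀ y ∈ ball p r, x ∉ S → y ∉ S → |h x - h y| ≤ C * Real.sqrt (dist x y)) →
  ∀ X : E → E, ContDiff ℝ ∞ X → HasCompactSupport X → tsupport X ⊆ ball p r → JX Ω X h = 0

/-- a jump which vanishes on a dense set vanishes -/
def T_CNT : Prop := ∀ (Ω S : Set E) (h : E → ℝ) (p : E), IsOpen Ω → Bornology.IsBounded Ω → IsClosed S →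
  volume S = 0 → WN Ω S h → p ∈ intPts S → p ∈ Ω →
  (∃ r > 0, ∀ q ∈ S, q ∈ ball p r → q ∈ closure {q | q ∈ S ∧ NJ Ω h q}) → NJ Ω h p

/-- the part of a crack off a compact set `L` where there is no jump is removable -/
def T_RML : Prop := ∀ (Ω S L : Set E) (σ : Measure E) (ν : E → E) (h τ : E → ℝ), IsOpen Ω →
  Bornology.IsBounded Ω → IsSurf Ω σ ν → IsCrack Ω S → IsCompact L →
  (∀ p ∈ intPts S, p ∉ L → NJ Ω h p) → HS1 Ω S σ ν h (gr h) τ → HS1 Ω L σ ν h (gr h) τ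

/-! ## D: the theorem -/

/-- the theorem on discs for a given complete family -/
def T_FDC : Prop := ∀ (N : ℕ) (Ω : Set E) (σ : Measure E) (ν : E → E) (ψ : Fin N → E → ℝ), Dom Ω →
  IsSurf Ω σ ν → Fam Ω σ ν ψ → ∀ S S' : Set E, IsCrack Ω S → IsDisc Ω S' → Distinguish Ω σ ν ψ S S'

/-- THE THEOREM -/
def T_MNC : Prop := ∀ (Ω : Set E) (σ : Measure E) (ν : E → E), Dom Ω → IsSurf Ω σ ν →
  ∃ (N : ℕ) (ψ : Fin N → E → ℝ), (∀ i, IsProfile σ (ψ i)) ∧ ∀ S S' : Set E, IsCrack Ω S →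
    (IsDisc Ω S' → Distinguish Ω σ ν ψ S S') ∧
    (IsCrack Ω S' → (Pure S → Contain Ω σ ν ψ S S') ∧
      (Pure S ∧ Pure S' ∨ edgePts S = edgePts S' ∨ CommonSmall Ω S S' → Distinguish Ω σ ν ψ S S'))

end Pool.Agent.H92.CK
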