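import Mathlib
import Pool.Agent.H92.CK.Targets

/-!
# Module MNC: the theorem on pairs of cracks of arbitrary genus
-/

open MeasureTheory Set Filter Topology Metric
open scoped ENNReal NNReal ContDiff RealInnerProductSpace

namespace Pool.Agent.H92.CK

open Pool.Agent.H94.IC Pool.Agent.H94.AC

/-- charts can be translated -/
theorem flat_at {S : Set E} {q : E} (Ψ : OpenPartialHomeomorph E E) (hq : q ∈ Ψ.source) (hq2 : (Ψ q) 2 = 0)
    (hsm : ContDiffOn ℝ ∞ Ψ Ψ.source) (hsms : ContDiffOn ℝ ∞ Ψ.symm Ψ.target)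
    (hfl : ∀ x ∈ Ψ.source, x ∈ S ↔ (Ψ x) 2 = 0) : FlatChart S q False := by
  set T : E ≃ₜ E := Homeomorph.addRight (-(Ψ q)) with hT
  have hTa : ∀ y, T y = y + -(Ψ q) := fun y => rfl
  have hTs : ∀ y, T.symm y = y + - -(Ψ q) := fun y => rfl
  set Ψ' : OpenPartialHomeomorph E E := Ψ.transHomeomorph T with hΨ'
  have hsrc : Ψ'.source = Ψ.source := rfl
  have hap : ∀ x, Ψ' x = Ψ x + -(Ψ q) := fun x => rfl
  have hsy : ∀ y, Ψ'.symm y = Ψ.symm (y + - -(Ψ q)) := fun y => rfl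
  refine ⟨Ψ', hq, ?_, ?_, ?_, ?_⟩
  · rw [hap]; abel
  · exact (hsm.add contDiffOn_const)
  · have h1 : ContDiff ℝ ∞ (fun y : E => y + - -(Ψ q)) := contDiff_id.add contDiff_const
    refine ContDiffOn.comp (g := Ψ.symm) (t := Ψ.target) hsms h1.contDiffOn ?_
    intro y hy
    exact hy
  · intro x hx
    rw [hfl x hx, hap]
    have e : (Ψ x + -(Ψ q)) 2 = (Ψ x) 2 := by
      show (Ψ x) 2 + -(Ψ q) 2 = (Ψ x) 2
      rw [hq2]; ring
    rw [e]
    exact ⟨fun h => ⟨h, fun h => h.elim⟩, fun h => h.1⟩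

theorem sol_left {N M : ℕ} {Ω S : Set E} {σ : Measure E} {ν : E → E} {ψ : Fin N → E → ℝ} {φ : Fin M → E → ℝ}
    {u : Fin (N + M) → E → ℝ} {F : Fin (N + M) → E → E} {τ : Fin (N + M) → E → ℝ}
    (h : ∀ i, Sol Ω S σ ν (Fin.append ψ φ i) (u i) (F i) (τ i)) (i : Fin N) :
    Sol Ω S σ ν (ψ i) (u (Fin.castAdd M i)) (F (Fin.castAdd M i)) (τ (Fin.castAdd M i)) := by
  have h1 := h (Fin.castAdd M i)
  rwa [Fin.append_left] at h1

theorem sol_right {N M : ℕ} {Ω S : Set E} {σ : Measure E} {ν : E → E} {ψ : Fin N → E → ℝ} {φ : Fin M → E → ℝ}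
    {u : Fin (N + M) → E → ℝ} {F : Fin (N + M) → E → E} {τ : Fin (N + M) → E → ℝ}
    (h : ∀ i, Sol Ω S σ ν (Fin.append ψ φ i) (u i) (F i) (τ i)) (i : Fin M) :
    Sol Ω S σ ν (φ i) (u (Fin.natAdd N i)) (F (Fin.natAdd N i)) (τ (Fin.natAdd N i)) := by
  have h1 := h (Fin.natAdd N i)
  rwa [Fin.append_right] at h1

theorem dist_left {N M : ℕ} {Ω S S' : Set E} {σ : Measure E} {ν : E → E} {ψ : Fin N → E → ℝ}
    {φ : Fin M → E → ℝ} (h : Distinguish Ω σ ν ψ S S') : Distinguish Ω σ ν (Fin.append ψ φ) S S' := by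
  intro u u' F F' τ τ' h1 h2 h3 h4 h5
  exact h (fun i => u (Fin.castAdd M i)) (fun i => u' (Fin.castAdd M i)) (fun i => F (Fin.castAdd M i))
    (fun i => F' (Fin.castAdd M i)) (fun i => τ (Fin.castAdd M i)) (fun i => τ' (Fin.castAdd M i))
    (sol_left h1) (fun i => h2 _) (sol_left h3) (fun i => h4 _) (fun i => h5 _)

theorem cont_left {N M : ℕ} {Ω S S' : Set E} {σ : Measure E} {ν : E → E} {ψ : Fin N → E → ℝ}
    {φ : Fin M → E → ℝ} (h : Contain Ω σ ν ψ S S') : Contain Ω σ ν (Fin.append ψ φ) S S' := by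
  intro u u' F F' τ τ' h1 h2 h3 h4 h5
  exact h (fun i => u (Fin.castAdd M i)) (fun i => u' (Fin.castAdd M i)) (fun i => F (Fin.castAdd M i))
    (fun i => F' (Fin.castAdd M i)) (fun i => τ (Fin.castAdd M i)) (fun i => τ' (Fin.castAdd M i))
    (sol_left h1) (fun i => h2 _) (sol_left h3) (fun i => h4 _) (fun i => h5 _)

theorem cont_right {N M : ℕ} {Ω S S' : Set E} {σ : Measure E} {ν : E → E} {ψ : Fin N → E → ℝ}
    {φ : Fin M → E → ℝ} (h : Contain Ω σ ν φ S S') : Contain Ω σ ν (Fin.append ψ φ) S S' := by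
  intro u u' F F' τ τ' h1 h2 h3 h4 h5
  exact h (fun i => u (Fin.natAdd N i)) (fun i => u' (Fin.natAdd N i)) (fun i => F (Fin.natAdd N i))
    (fun i => F' (Fin.natAdd N i)) (fun i => τ (Fin.natAdd N i)) (fun i => τ' (Fin.natAdd N i))
    (sol_right h1) (fun i => h2 _) (sol_right h3) (fun i => h4 _) (fun i => h5 _)

theorem dist_right {N M : ℕ} {Ω S S' : Set E} {σ : Measure E} {ν : E → E} {ψ : Fin N → E → ℝ}
    {φ : Fin M → E → ℝ} (h : Distinguish Ω σ ν φ S S') : Distinguish Ω σ ν (Fin.append ψ φ) S S' := by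
  intro u u' F F' τ τ' h1 h2 h3 h4 h5
  exact h (fun i => u (Fin.natAdd N i)) (fun i => u' (Fin.natAdd N i)) (fun i => F (Fin.natAdd N i))
    (fun i => F' (Fin.natAdd N i)) (fun i => τ (Fin.natAdd N i)) (fun i => τ' (Fin.natAdd N i))
    (sol_right h1) (fun i => h2 _) (sol_right h3) (fun i => h4 _) (fun i => h5 _)

theorem cont_antisymm {N : ℕ} {Ω S S' : Set E} {σ : Measure E} {ν : E → E} {ψ : Fin N → E → ℝ}
    (h : Contain Ω σ ν ψ S S') (h' : Contain Ω σ ν ψ S' S) : Distinguish Ω σ ν ψ S S' := by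
  intro u u' F F' τ τ' h1 h2 h3 h4 h5
  exact Subset.antisymm (h u u' F F' τ τ' h1 h2 h3 h4 h5)
    (h' u' u F' F τ' τ h3 h4 h1 h2 (fun i => (h5 i).symm))

theorem hs1_mono {Ω L S : Set E} {σ : Measure E} {ν : E → E} {u : E → ℝ} {F : E → E} {τ : E → ℝ} (hLS : L ⊆ S)
    (h : HS1 Ω L σ ν u F τ) : HS1 Ω S σ ν u F τ :=
  ⟨h.u2, h.F2, h.t2, fun X h1 h2 h3 => h.tr X h1 h2 (h3.mono_right hLS)⟩

/-- the solution for `S` solves the problem for `L` -/
theorem sol_L {Ω L S : Set E} {σ : Measure E} {ν : E → E} {ψ u : E → ℝ} {F : E → E} {τ : E → ℝ} (hLS : L ⊆ S)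
    (h : Sol Ω S σ ν ψ u F τ) (hL : HS1 Ω L σ ν u F τ) : Sol Ω L σ ν ψ u F τ :=
  ⟨hL, fun φ G κ h1 => h.weak φ G κ (hs1_mono hLS h1)⟩

/-- no jump at the points of `S` off a closed set which contains the open pieces of `S` inside `S'` -/
theorem nj_off (hCNT : T_CNT) (hSNJ : T_SNJ) {Ω S S' L : Set E} {h h' : E → ℝ} (hO : IsOpen Ω)
    (hB : Bornology.IsBounded Ω) (hS : IsCrack Ω S) (hS0 : volume S = 0) (hS'c : IsClosed S') (hL : IsClosed L)
    (hW : WN Ω S h) (hH : Harm (Ω \ S') h') (heq : ∀ x ∈ Ω, x ∉ S → x ∉ S' → h x = h' x)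
    (hcl : ∀ p ∈ intPts S, p ∉ L → p ∈ closure (S \ S')) :
    ∀ p ∈ intPts S, p ∉ L → NJ Ω h p := by
  intro p hp hpL
  have hpS : p ∈ S := hp.1
  have hpΩ : p ∈ Ω := hS.sub hpS
  have hSc : IsClosed S := hS.cpt.isClosed
  obtain ⟨Ψ, hps, hp0, hsm, hsms, hfl⟩ := hp.2
  have hfl' : ∀ x ∈ Ψ.source, x ∈ S ↔ (Ψ x) 2 = 0 := fun x hx =>
    (hfl x hx).trans ⟨fun h => h.1, fun h => ⟨h, fun h => h.elim⟩⟩
  obtain ⟨r, hr, hrs⟩ := Metric.isOpen_iff.1 (Ψ.open_source.inter hL.isOpen_compl) p ⟨hps, hpL⟩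
  refine hCNT Ω S h p hO hB hSc hS0 hW hp hpΩ ⟨r, hr, fun q hq hqb => ?_⟩
  have hqs : q ∈ Ψ.source := (hrs hqb).1
  have hqI : q ∈ intPts S := ⟨hq, flat_at Ψ hqs ((hfl' q hqs).1 hq) hsm hsms hfl'⟩
  have hqc := hcl q hqI (hrs hqb).2
  rw [_root_.mem_closure_iff] at hqc ⊢
  intro o ho hqo
  obtain ⟨y, hyo, hyS, hyS'⟩ := hqc o ho hqo
  refine ⟨y, hyo, hyS, ?_⟩
  have hyΩ : y ∈ Ω := hS.sub hyS
  obtain ⟨t, ht, htb⟩ := Metric.isOpen_iff.1 (hO.sdiff hS'c) y ⟨hyΩ, hyS'⟩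
  refine ⟨t, ht, htb.trans sdiff_subset, fun X h1 h2 h3 => ?_⟩
  exact hSNJ Ω S h h' y t X hO hSc hS0 (htb.trans sdiff_subset) (hH.1.mono htb)
    (fun x hx hxS => heq x (htb hx).1 hxS (htb hx).2) h1 h2 h3

theorem pf_MNC (hFAM : T_FAM) (hFDC : T_FDC) (hCSL : T_CSL) (hPRT : T_PRT) (hHRP : T_HRP) (hEQN : T_EQN)
    (hNAC : T_NAC) (hSED : T_SED) (hCNT : T_CNT) (hRML : T_RML) (hNOX : T_NOX) (hSNJ : T_SNJ) (hTUB : T_TUB)
    (hNLS : T_NLS) (hEDC : T_EDC) (hWNS : T_WNS) : T_MNC := by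
  intro Ω σ ν hD hσ
  obtain ⟨N, ψ, hF⟩ := hFAM Ω σ ν hD hσ
  refine ⟨N + 2, Fin.append ψ (prof2 ν), ?_, ?_⟩
  · intro i
    refine Fin.addCases (fun j => ?_) (fun j => ?_) i
    · rw [Fin.append_left]; exact hF.prof j
    · rw [Fin.append_right]; exact hPRT Ω σ ν hD hσ j
  -- volume and closedness of cracks
  have hvol : ∀ S, IsCrack Ω S → volume S = 0 := fun S hS => (hEDC Ω S hS).2.2.2.2
  obtain ⟨i0, hi0⟩ := hF.nor 0
  obtain ⟨is, his⟩ := hF.special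
  -- nowhere analytic cracks
  have hcon : ∀ S S', IsCrack Ω S → IsCrack Ω S' → Pure S → Contain Ω σ ν (Fin.append ψ (prof2 ν)) S S' := by
    intro S S' hS hS' hP
    rcases hP with hP | hP
    · exact cont_right (hCSL Ω S S' σ ν hD hσ ⟨hS, hP⟩ hS')
    · refine cont_left ?_
      intro u u' F F' τ τ' hu _ hu' _ hττ
      choose h hh _ _ hsol using fun i => hHRP Ω S σ ν (ψ i) (u i) (F i) (τ i) hD.op hD.bdd hσ hS.cpt
        hS.sub (hvol S hS) (hu i)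
      choose h' hh' _ _ hsol' using fun i => hHRP Ω S' σ ν (ψ i) (u' i) (F' i) (τ' i) hD.op hD.bdd hσ hS'.cpt
        hS'.sub (hvol S' hS') (hu' i)
      have heq := (hEQN N Ω S S' σ ν ψ h h' τ τ' i0 hD hσ hS hS' hi0 hh hsol hh' hsol' hττ).2
      exact hNAC N Ω S S' σ ν ψ h h' τ τ' hD hσ hF hS hS' hh hsol hh' hsol' heq hP
  intro S S' hS
  refine ⟨fun hd => dist_left (hFDC N Ω σ ν ψ hD hσ hF S S' hS hd), fun hS' => ⟨hcon S S' hS hS', ?_⟩⟩
  have hS0 := hvol S hS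
  have hS'0 := hvol S' hS'
  rintro (⟨hP, hP'⟩ | hE | hC)
  · exact cont_antisymm (hcon S S' hS hS' hP) (hcon S' S hS' hS hP')
  · -- the same edge
    refine dist_left ?_
    intro u u' F F' τ τ' hu _ hu' _ hττ
    choose h hh _ _ hsol using fun i => hHRP Ω S σ ν (ψ i) (u i) (F i) (τ i) hD.op hD.bdd hσ hS.cpt
      hS.sub hS0 (hu i)
    choose h' hh' _ _ hsol' using fun i => hHRP Ω S' σ ν (ψ i) (u' i) (F' i) (τ' i) hD.op hD.bdd hσ hS'.cpt
      hS'.sub hS'0 (hu' i)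
    have heq := (hEQN N Ω S S' σ ν ψ h h' τ τ' i0 hD hσ hS hS' hi0 hh hsol hh' hsol' hττ).2
    refine hSED Ω S S' σ ν ![h is, h i0] ![h' is, h' i0] ![τ is, τ i0] ![τ' is, τ' i0] hD hσ hS hS' hE
      ?_ ?_ ?_ ?_ ?_
    · intro i
      fin_cases i
      · exact hh is
      · exact hh i0
    · intro i
      fin_cases i
      · have h1 := hsol is
        rw [his] at h1
        exact h1
      · have h1 := hsol i0
        rw [hi0] at h1
        exact h1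
    · intro i
      fin_cases i
      · exact hh' is
      · exact hh' i0
    · intro i
      fin_cases i
      · have h1 := hsol' is
        rw [his] at h1
        exact h1
      · have h1 := hsol' i0
        rw [hi0] at h1
        exact h1
    · intro i
      fin_cases i
      · exact heq is
      · exact heq i0
  · rcases hC with hC | ⟨L, hL, hLS, hc1, hc2⟩
    · -- no open piece in common
      refine dist_right ?_
      intro u u' F F' τ τ' hu _ hu' _ hττ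
      choose h hh _ _ hsol using fun i => hHRP Ω S σ ν (prof2 ν i) (u i) (F i) (τ i) hD.op hD.bdd hσ hS.cpt
        hS.sub hS0 (hu i)
      choose h' hh' _ _ hsol' using fun i => hHRP Ω S' σ ν (prof2 ν i) (u' i) (F' i) (τ' i) hD.op hD.bdd hσ
        hS'.cpt hS'.sub hS'0 (hu' i)
      have heq := (hEQN 2 Ω S S' σ ν (prof2 ν) h h' τ τ' 0 hD hσ hS hS' rfl hh hsol hh' hsol' hττ).2
      exfalso
      refine hNOX Ω S σ ν h τ hD hσ hS hh hsol fun i p hp => ?_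
      exact nj_off hCNT hSNJ hD.op hD.bdd hS hS0 hS'.cpt.isClosed isClosed_empty
        (hWNS Ω S σ ν (prof2 ν i) (h i) (τ i) hD.op hD.bdd hσ hS.cpt hS.sub (hh i) (hsol i)) (hh' i) (heq i)
        (fun p hp _ => hC p hp) p hp (notMem_empty p)
    · -- the common open pieces are contained in a disc
      obtain ⟨Φ, δ, hT⟩ := hTUB Ω L hD.op hL
      obtain ⟨hL0, hLc, hLΩ⟩ := (hNLS Ω L).2 Φ δ hT
      refine dist_left ?_
      intro u u' F F' τ τ' hu hm hu' hm' hττ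
      choose h hh _ _ hsol using fun i => hHRP Ω S σ ν (ψ i) (u i) (F i) (τ i) hD.op hD.bdd hσ hS.cpt
        hS.sub hS0 (hu i)
      choose h' hh' _ _ hsol' using fun i => hHRP Ω S' σ ν (ψ i) (u' i) (F' i) (τ' i) hD.op hD.bdd hσ hS'.cpt
        hS'.sub hS'0 (hu' i)
      have heq := (hEQN N Ω S S' σ ν ψ h h' τ τ' i0 hD hσ hS hS' hi0 hh hsol hh' hsol' hττ).2
      have hNJ : ∀ i, ∀ p ∈ intPts S, p ∉ L → NJ Ω (h i) p := fun i =>
        nj_off hCNT hSNJ hD.op hD.bdd hS hS0 hS'.cpt.isClosed hLc.isClosed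
          (hWNS Ω S σ ν (ψ i) (h i) (τ i) hD.op hD.bdd hσ hS.cpt hS.sub (hh i) (hsol i)) (hh' i) (heq i) hc1
      have hNJ' : ∀ i, ∀ p ∈ intPts S', p ∉ L → NJ Ω (h' i) p := fun i =>
        nj_off hCNT hSNJ hD.op hD.bdd hS' hS'0 hS.cpt.isClosed hLc.isClosed
          (hWNS Ω S' σ ν (ψ i) (h' i) (τ' i) hD.op hD.bdd hσ hS'.cpt hS'.sub (hh' i) (hsol' i)) (hh i)
          (fun x hx h1 h2 => (heq i x hx h2 h1).symm) hc2
      rcases hLS with hLS | hLS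
      · have hsL : ∀ i, Sol Ω L σ ν (ψ i) (h i) (gr (h i)) (τ i) := fun i =>
          sol_L hLS (hsol i) (hRML Ω S L σ ν (h i) (τ i) hD.op hD.bdd hσ hS hLc (hNJ i) (hsol i).h)
        have e1 : S = L := hFDC N Ω σ ν ψ hD hσ hF S L hS hL h h (fun i => gr (h i)) (fun i => gr (h i)) τ τ
          hsol hm hsL hm (fun i => EventuallyEq.rfl)
        have e2 : S' = L := hFDC N Ω σ ν ψ hD hσ hF S' L hS' hL h' h (fun i => gr (h' i)) (fun i => gr (h i)) τ' τ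
          hsol' hm' hsL hm (fun i => (hττ i).symm)
        rw [e1, e2]
      · have hsL : ∀ i, Sol Ω L σ ν (ψ i) (h' i) (gr (h' i)) (τ' i) := fun i =>
          sol_L hLS (hsol' i) (hRML Ω S' L σ ν (h' i) (τ' i) hD.op hD.bdd hσ hS' hLc (hNJ' i) (hsol' i).h)
        have e1 : S = L := hFDC N Ω σ ν ψ hD hσ hF S L hS hL h h' (fun i => gr (h i)) (fun i => gr (h' i)) τ τ'
          hsol hm hsL hm' hττ
        have e2 : S' = L := hFDC N Ω σ ν ψ hD hσ hF S' L hS' hL h' h' (fun i => gr (h' i)) (fun i => gr (h' i)) τ' τ'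
          hsol' hm' hsL hm' (fun i => EventuallyEq.rfl)
        rw [e1, e2]

end Pool.Agent.H92.CK
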