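import Mathlib
import Pool.Agent.H92.CK.MNC
import Pool.Agent.H92.CK.Stmt

/-!
# Pairs of insulating cracks: tools for the final theorem
-/

open MeasureTheory Set Filter Topology Metric
open scoped ENNReal NNReal ContDiff RealInnerProductSpace

namespace Pool.Agent.H92.CK

open Pool.Agent.H94.IC Pool.Agent.H94.AC

theorem nj_open2 (Ω : Set E) (h : E → ℝ) : IsOpen {p | NJ Ω h p} := by
  rw [Metric.isOpen_iff]
  rintro p ⟨r, hr, hb, hX⟩
  refine ⟨r, hr, fun q hq => ?_⟩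
  rw [mem_ball] at hq
  have hsub : ball q (r - dist q p) ⊆ ball p r := by
    refine ball_subset_ball' ?_
    linarith
  exact ⟨r - dist q p, by linarith, hsub.trans hb, fun X h1 h2 h3 => hX X h1 h2 (h3.trans hsub)⟩

/-- the jump vanishes off a closed set `L` if off `L` the set `S \ S'` and the analytic parts of `S` which it
reaches are dense -/
theorem nj_spread (hCNT : T_CNT) (hSNJ : T_SNJ) (hCLO : T_CLO) {Ω S S' L : Set E} {h h' : E → ℝ} (hO : IsOpen Ω)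
    (hB : Bornology.IsBounded Ω) (hS : IsCrack Ω S) (hS0 : volume S = 0) (hS'c : IsClosed S') (hL : IsClosed L)
    (hW : WN Ω S h) (hH : Harm (Ω \ S') h') (heq : ∀ x ∈ Ω, x ∉ S → x ∉ S' → h x = h' x)
    (hcl : S ⊆ closure ((S \ S') ∪ Reach S S') ∪ L) :
    ∀ p ∈ intPts S, p ∉ L → NJ Ω h p := by
  have hSc : IsClosed S := hS.cpt.isClosed
  -- no jump off `S'`
  have h1 : ∀ y ∈ S, y ∉ S' → NJ Ω h y := by
    intro y hyS hyS'
    have hyΩ : y ∈ Ω := hS.sub hyS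
    obtain ⟨t, ht, htb⟩ := Metric.isOpen_iff.1 (hO.sdiff hS'c) y ⟨hyΩ, hyS'⟩
    refine ⟨t, ht, htb.trans sdiff_subset, fun X h1 h2 h3 => ?_⟩
    exact hSNJ Ω S h h' y t X hO hSc hS0 (htb.trans sdiff_subset) (hH.1.mono htb)
      (fun x hx hxS => heq x (htb hx).1 hxS (htb hx).2) h1 h2 h3
  -- no jump on the analytic parts reached from there
  have h2 : ∀ y ∈ Reach S S', NJ Ω h y := by
    rintro y ⟨C, hCA, hCp, hyC, z, hzC, hzS'⟩
    have hz : NJ Ω h z := h1 z (hCA hzC).1.1 hzS'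
    have hcl : ∀ q ∈ C, q ∈ closure {q | q ∈ S ∧ NJ Ω h q} → NJ Ω h q := fun q hq hq' =>
      hCLO Ω S h q hO hB hSc hS0 hW (hCA hq).1.1 (hS.sub (hCA hq).1.1) (hCA hq).2 hq'
    by_contra hny
    have key := hCp {q | NJ Ω h q} (closure {q | q ∈ S ∧ NJ Ω h q})ᶜ (nj_open2 Ω h)
      isClosed_closure.isOpen_compl ?_ ⟨z, hzC, hz⟩ ⟨y, hyC, fun hc => hny (hcl y hyC hc)⟩
    · obtain ⟨w, hw, hw1, hw2⟩ := key
      exact hw2 (subset_closure ⟨(hCA hw).1.1, hw1⟩)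
    · intro w hw
      by_cases hc : w ∈ closure {q | q ∈ S ∧ NJ Ω h q}
      · exact Or.inl (hcl w hw hc)
      · exact Or.inr hc
  have h3 : (S \ S') ∪ Reach S S' ⊆ {q | q ∈ S ∧ NJ Ω h q} := by
    rintro y (hy | hy)
    · exact ⟨hy.1, h1 y hy.1 hy.2⟩
    · have hy2 := h2 y hy
      obtain ⟨C, hCA, -, hyC, -⟩ := hy
      exact ⟨(hCA hyC).1.1, hy2⟩
  intro p hp hpL
  obtain ⟨r, hr, hrs⟩ := Metric.isOpen_iff.1 hL.isOpen_compl p hpL
  refine hCNT Ω S h p hO hB hSc hS0 hW hp (hS.sub hp.1) ⟨r, hr, fun q hq hqb => ?_⟩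
  rcases hcl hq with h4 | h4
  · exact closure_mono h3 h4
  · exact (hrs hqb h4).elim

/-- local version of NAC: off `S'` the real-analytic points are dense in `S` -/
theorem ana_dense (hTAN : T_TAN) (hSIY : T_SIY) (hINC : T_INC) (hNTV : T_NTV) (hCNX : T_CNX)
    (hWNS : T_WNS) (hANC : T_ANC) {N : ℕ} {Ω S S' : Set E} {σ : Measure E} {ν : E → E}
    {ψ h h' τ τ' : Fin N → E → ℝ} (hD : Dom Ω) (hσ : IsSurf Ω σ ν) (hF : Fam Ω σ ν ψ) (hS : IsCrack Ω S)
    (hS' : IsCrack Ω S') (hh : ∀ i, Harm (Ω \ S) (h i)) (hsol : ∀ i, Sol Ω S σ ν (ψ i) (h i) (gr (h i)) (τ i))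
    (hh' : ∀ i, Harm (Ω \ S') (h' i)) (hsol' : ∀ i, Sol Ω S' σ ν (ψ i) (h' i) (gr (h' i)) (τ' i))
    (heq : ∀ i, ∀ x ∈ Ω, x ∉ S → x ∉ S' → h i x = h' i x) :
    ∀ p ∈ intPts S, p ∉ S' → ∀ o : Set E, IsOpen o → p ∈ o → ∃ q ∈ o, q ∈ AnaPts S ∧ q ∉ S' := by
  intro p hpint hpS' o ho hpo
  have hSc : IsClosed S := hS.cpt.isClosed
  have hSc' : IsClosed S' := hS'.cpt.isClosed
  obtain ⟨hpS, Ψ, hp, hp0', hsm, hsms, hfl⟩ := hpint
  have hpΩ : p ∈ Ω := hS.sub hpS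
  have hO : IsOpen (Ω \ S') := hD.op.sdiff hSc'
  -- restrict the chart
  set Ψ' : OpenPartialHomeomorph E E := Ψ.restrOpen ((Ω \ S') ∩ o) (hO.inter ho) with hΨ'
  have hsrc : Ψ'.source = Ψ.source ∩ ((Ω \ S') ∩ o) := by
    rw [hΨ', OpenPartialHomeomorph.restrOpen_source]
  have hcoe : ∀ x, Ψ' x = Ψ x := fun x => rfl
  have htgt : Ψ'.target ⊆ Ψ.target := by
    intro y hy
    have h1 : Ψ'.symm y ∈ Ψ'.source := Ψ'.map_target hy
    rw [hsrc] at h1
    have h2 : Ψ' (Ψ'.symm y) = y := Ψ'.right_inv hy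
    have h3 := Ψ.map_source h1.1
    rw [← hcoe, h2] at h3
    exact h3
  have hsm' : ContDiffOn ℝ ∞ Ψ' Ψ'.source := by
    rw [hsrc]; exact hsm.mono inter_subset_left
  have hsms' : ContDiffOn ℝ ∞ Ψ'.symm Ψ'.target := hsms.mono htgt
  have hfl' : ∀ x ∈ Ψ'.source, x ∈ S ↔ (Ψ' x) 2 = 0 := by
    intro x hx
    rw [hsrc] at hx
    rw [hfl x hx.1]
    simp [hcoe]
  have hpsrc : p ∈ Ψ'.source := by rw [hsrc]; exact ⟨hp, ⟨hpΩ, hpS'⟩, hpo⟩
  have hp2 : (Ψ' p) 2 = 0 := (hfl' p hpsrc).1 hpS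
  have hsub : Ψ'.source ⊆ Ω \ S' := by
    rw [hsrc]; exact fun x hx => hx.2.1
  have htan : ∀ j, ∀ q ∈ Ψ'.source, (Ψ' q) 2 = 0 →
      ⟪gr (h' j) q, gr (fun x => (Ψ' x) 2) q⟫ = 0 := by
    intro j q hq hq2
    have hW : WN Ω S (h j) := hWNS Ω S σ ν (ψ j) (h j) (τ j) hD.op hD.bdd hσ hS.cpt hS.sub
      (hh j) (hsol j)
    exact hTAN Ω S (Ω \ S') (h j) (h' j) Ψ' hD.op hSc hO hW (hh' j) hsub
      (fun x hx => (hsub hx).1) hsm' hsms' hfl'
      (fun x hx hxS => heq j x (hsub hx).1 hxS (hsub hx).2) q hq ((hfl' q hq).2 hq2)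
  have hinv := hSIY N (Ω \ S') h' Ψ' hO hh' hsub hsm' hsms' htan
  have hnt : NonTriv (Ω \ S') h' := hNTV N Ω S' σ ν ψ h' τ' hD hσ hF.bar hS'.cpt hS'.sub hh' hsol'
  have hAN := ((hINC N (Ω \ S') h' hO hh').2.2 (hCNX Ω S' hD.op hD.conn hS').isPreconnected
    hnt).1 p ⟨hpΩ, hpS'⟩
  obtain ⟨q, hq, hqS, hqA⟩ := hANC (Inv (Ω \ S') h') S Ψ' p hpsrc hp2 hsm' hsms' hfl'
    (fun x hx hxS => hinv x hx ((hfl' x hx).1 hxS)) hAN
  refine ⟨q, ?_, ⟨⟨hqS, flat_at Ψ' hq ((hfl' q hq).1 hqS) hsm' hsms' hfl'⟩, hqA⟩, (hsub hq).2⟩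
  rw [hsrc] at hq
  exact hq.2.2

/-- an interior point of a surface is not an edge point of a larger surface -/
theorem ein {S S' : Set E} {q : E} (hsub : S ⊆ S') (h1 : FlatChart S q False) (h2 : FlatChart S' q True) :
    False := by
  obtain ⟨Ψ, hq, hq0, hsm, hsms, hfl⟩ := h1
  obtain ⟨Ψ', hq', hq0', hsm', hsms', hfl'⟩ := h2
  have h0t : (0 : E) ∈ Ψ.target := by rw [← hq0]; exact Ψ.map_source hq
  have hs0 : Ψ.symm 0 = q := by rw [← hq0]; exact Ψ.left_inv hq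
  have h0t' : (0 : E) ∈ Ψ'.target := by rw [← hq0']; exact Ψ'.map_source hq'
  have hs0' : Ψ'.symm 0 = q := by rw [← hq0']; exact Ψ'.left_inv hq'
  -- derivatives
  have dS : DifferentiableAt ℝ Ψ.symm 0 :=
    (hsms.contDiffAt (Ψ.open_target.mem_nhds h0t)).differentiableAt (by simp)
  have dP' : DifferentiableAt ℝ Ψ' q :=
    (hsm'.contDiffAt (Ψ'.open_source.mem_nhds hq')).differentiableAt (by simp)
  have dP : DifferentiableAt ℝ Ψ q :=
    (hsm.contDiffAt (Ψ.open_source.mem_nhds hq)).differentiableAt (by simp)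
  have dS' : DifferentiableAt ℝ Ψ'.symm 0 :=
    (hsms'.contDiffAt (Ψ'.open_target.mem_nhds h0t')).differentiableAt (by simp)
  set θ : E → E := fun y => Ψ' (Ψ.symm y) with hθ
  have hθ0 : θ 0 = 0 := by rw [hθ]; simp only [hs0, hq0']
  have dθ : DifferentiableAt ℝ θ 0 := by
    have : DifferentiableAt ℝ Ψ' (Ψ.symm 0) := by rw [hs0]; exact dP'
    exact this.comp (0 : E) dS
  set D : E →L[ℝ] E := fderiv ℝ θ 0 with hDdef
  have hD : HasFDerivAt θ D 0 := dθ.hasFDerivAt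
  -- injectivity
  have hinj : ∀ w, D w = 0 → w = 0 := by
    intro w hw
    have hη : DifferentiableAt ℝ (fun z => Ψ (Ψ'.symm z)) (θ 0) := by
      rw [hθ0]
      have : DifferentiableAt ℝ Ψ (Ψ'.symm 0) := by rw [hs0']; exact dP
      exact this.comp (0 : E) dS'
    have hc := hη.hasFDerivAt.comp (0 : E) hD
    have hid : ((fun z => Ψ (Ψ'.symm z)) ∘ θ) =ᶠ[𝓝 (0 : E)] id := by
      have hn1 : ∀ᶠ y in 𝓝 (0 : E), y ∈ Ψ.target := Ψ.open_target.mem_nhds h0t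
      have hn2 : ∀ᶠ y in 𝓝 (0 : E), Ψ.symm y ∈ Ψ'.source := by
        apply dS.continuousAt
        rw [hs0]
        exact Ψ'.open_source.mem_nhds hq'
      filter_upwards [hn1, hn2] with y hy1 hy2
      show Ψ (Ψ'.symm (Ψ' (Ψ.symm y))) = y
      rw [Ψ'.left_inv hy2, Ψ.right_inv hy1]
    have h3 := (hc.congr_of_eventuallyEq hid.symm).unique (hasFDerivAt_id (𝕜 := ℝ) (0 : E))
    have h4 := congrArg (fun L : E →L[ℝ] E => L w) h3
    simp only [ContinuousLinearMap.comp_apply, ContinuousLinearMap.id_apply] at h4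
    rw [hw, map_zero] at h4
    exact h4.symm
  -- values on the plane
  have hval : ∀ k : Fin 3, k ≠ 2 → ∀ᶠ t in 𝓝 (0 : ℝ), (θ (t • ev k)) 2 = 0 ∧ 0 ≤ (θ (t • ev k)) 0 := by
    intro k hk
    have hcont : Tendsto (fun t : ℝ => t • ev k) (𝓝 0) (𝓝 (0 : E)) := by
      have : Continuous fun t : ℝ => t • ev k := by fun_prop
      have h5 := this.tendsto 0
      rwa [zero_smul] at h5
    have hn1 : ∀ᶠ y in 𝓝 (0 : E), y ∈ Ψ.target := Ψ.open_target.mem_nhds h0t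
    have hn2 : ∀ᶠ y in 𝓝 (0 : E), Ψ.symm y ∈ Ψ'.source := by
      apply dS.continuousAt
      rw [hs0]
      exact Ψ'.open_source.mem_nhds hq'
    filter_upwards [hcont.eventually hn1, hcont.eventually hn2] with t ht1 ht2
    have h6 : Ψ.symm (t • ev k) ∈ S := by
      rw [hfl _ (Ψ.map_target ht1), Ψ.right_inv ht1]
      refine ⟨?_, fun h => h.elim⟩
      have : (t • ev k) 2 = t * (ev k) 2 := rfl
      rw [this]
      have : (ev k : E) 2 = 0 := by
        simp [ev, Ne.symm hk]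
      rw [this, mul_zero]
    have h7 := (hfl' _ ht2).1 (hsub h6)
    exact ⟨h7.1, h7.2 trivial⟩
  have hder : ∀ k : Fin 3, HasDerivAt (fun t : ℝ => θ (t • ev k)) (D (ev k)) 0 := by
    intro k
    have h8 : HasDerivAt (fun t : ℝ => t • ev k) (ev k) 0 := by
      have := (hasDerivAt_id (0 : ℝ)).smul_const (ev k : E)
      simpa using this
    have h9 : HasFDerivAt θ D ((0 : ℝ) • ev k) := by rw [zero_smul]; exact hD
    exact HasFDerivAt.comp_hasDerivAt (l := θ) (f := fun t : ℝ => t • ev k) (0 : ℝ) h9 h8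
  have hcoord : ∀ k j : Fin 3, HasDerivAt (fun t : ℝ => (θ (t • ev k)) j) ((D (ev k)) j) 0 := by
    intro k j
    exact ((EuclideanSpace.proj j : E →L[ℝ] ℝ).hasFDerivAt.comp_hasDerivAt (0 : ℝ) (hder k))
  have hz : ∀ k : Fin 3, k ≠ 2 → (D (ev k)) 2 = 0 ∧ (D (ev k)) 0 = 0 := by
    intro k hk
    have hk0 : θ ((0 : ℝ) • ev k) = 0 := by rw [zero_smul, hθ0]
    constructor
    · have h10 : (fun t : ℝ => (θ (t • ev k)) 2) =ᶠ[𝓝 0] fun _ => (0 : ℝ) := by
        filter_upwards [hval k hk] with t ht using ht.1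
      exact (hcoord k 2).unique ((hasDerivAt_const (0 : ℝ) (0 : ℝ)).congr_of_eventuallyEq h10)
    · have hmin : IsLocalMin (fun t : ℝ => (θ (t • ev k)) 0) 0 := by
        filter_upwards [hval k hk] with t ht
        rw [hk0]
        exact ht.2
      exact hmin.hasDerivAt_eq_zero (hcoord k 0)
  obtain ⟨a2, a0⟩ := hz 0 (by decide)
  obtain ⟨b2, b0⟩ := hz 1 (by decide)
  set a := (D (ev 0)) 1 with ha
  set b := (D (ev 1)) 1 with hb
  have hw : D (b • ev 0 - a • ev 1) = 0 := by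
    rw [map_sub, map_smul, map_smul]
    ext j
    fin_cases j
    · show b * (D (ev 0)) 0 - a * (D (ev 1)) 0 = 0
      rw [a0, b0]; ring
    · show b * (D (ev 0)) 1 - a * (D (ev 1)) 1 = 0
      rw [← ha, ← hb]; ring
    · show b * (D (ev 0)) 2 - a * (D (ev 1)) 2 = 0
      rw [a2, b2]; ring
  have hw0 := hinj _ hw
  have hb0 : a = 0 := by
    have h11 := congrArg (fun v : E => v 1) hw0
    have h12 : (b • ev 0 - a • ev 1 : E) 1 = -a := by
      show b * (ev 0 : E) 1 - a * (ev 1 : E) 1 = -a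
      simp [ev]
    have h13 : (0 : E) 1 = 0 := rfl
    simp only [h12, h13] at h11
    linarith
  have h14 : D (ev 0) = 0 := by
    ext j
    fin_cases j
    · exact a0
    · show (D (ev 0)) 1 = 0
      rw [← ha, hb0]
    · exact a2
  have h15 := hinj _ h14
  have h16 := congrArg (fun v : E => v 0) h15
  simp [ev] at h16

/-- a simple closed curve contained in a simple closed curve -/
theorem circle_sub (hCIR : T_CIR) {A B : Set E}
    (hA : ∃ γ : Circle → E, Continuous γ ∧ Function.Injective γ ∧ range γ = A)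
    (hB : ∃ γ : Circle → E, Continuous γ ∧ Function.Injective γ ∧ range γ = B) (hBA : B ⊆ A) : A = B := by
  obtain ⟨γ, hγ, hγi, hγr⟩ := hA
  obtain ⟨δ, hδ, hδi, hδr⟩ := hB
  have hemb : IsEmbedding γ := (hγ.isClosedEmbedding hγi).isEmbedding
  have hex : ∀ z, ∃ w, γ w = δ z := by
    intro z
    have h1 : δ z ∈ range γ := by rw [hγr]; exact hBA (by rw [← hδr]; exact mem_range_self z)
    exact h1
  choose f hf using hex
  have hfc : Continuous f := by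
    rw [hemb.continuous_iff]
    have : γ ∘ f = δ := funext hf
    rw [this]
    exact hδ
  have hfi : Function.Injective f := by
    intro z w hzw
    apply hδi
    rw [← hf z, ← hf w, hzw]
  have hfs := hCIR f hfc hfi
  refine Subset.antisymm ?_ hBA
  intro x hx
  rw [← hγr] at hx
  obtain ⟨w, rfl⟩ := hx
  obtain ⟨z, rfl⟩ := hfs w
  rw [hf z, ← hδr]
  exact mem_range_self z

end Pool.Agent.H92.CK
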