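import Mathlib
import Pool.Agent.H92.CK.Targets
import Pool.Agent.H86.IC.FFE

/-!
# Module FFG: sets bounded by the two cracks are flux free
-/

open MeasureTheory Set Filter Topology Metric
open scoped ENNReal NNReal ContDiff RealInnerProductSpace

namespace Pool.Agent.H92.CK

open Pool.Agent.H94.IC Pool.Agent.H94.AC Pool.Agent.H86.IC

/-- connected sets off the two cracks lie in `D` or are disjoint from `D` -/
theorem dich2 {S S' D V : Set E} (hD : IsOpen D) (hcl : ∀ x ∈ closure D, x ∉ S → x ∉ S' → x ∈ D)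
    (hV : IsPreconnected V) (hVS : V ⊆ (S ∪ S')ᶜ) : V ⊆ D ∨ Disjoint V D := by
  have hsp : V ⊆ D ∪ (closure D)ᶜ := by
    intro y hy
    by_cases h : y ∈ closure D
    · have h1 := hVS hy
      rw [mem_compl_iff, mem_union] at h1
      push Not at h1
      exact Or.inl (hcl y h h1.1 h1.2)
    · exact Or.inr h
  rcases hV.subset_or_subset hD isClosed_closure.isOpen_compl
    (disjoint_compl_right.mono_left subset_closure) hsp with h | h
  · exact Or.inl h
  · exact Or.inr (disjoint_left.2 fun y hy hyD => h hy (subset_closure hyD))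

theorem pf_FFG (hEDC : T_EDC) : T_FFG := by
  intro Ω S S' D h h' hDom hS hS'c hS'Ω hWN hH heq hDo hcl x hx
  have hS0 : volume S = 0 := (hEDC Ω S hS).2.2.2.2
  have hO : IsOpen (Ω \ S') := hDom.op.sdiff hS'c.isClosed
  obtain ⟨W, W1, W2, hWo, hxW, hWO, hW1o, hW2o, hdis, hp1, hp2, hWS⟩ := loc hDom.op hS hS'c.isClosed hx
  obtain ⟨r, hr, hrW⟩ := Metric.isOpen_iff.1 hWo x hxW
  refine ⟨r, hr, hrW.trans hWO, ?_⟩
  intro φ hL hc hs
  have hcont : ContinuousOn (gr h') (ball x r) := by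
    have h1 : ContinuousOn (fun y => fderiv ℝ h' y) (Ω \ S') :=
      hH.1.continuousOn_fderiv_of_isOpen hO (by simp)
    exact ((InnerProductSpace.toDual ℝ E).symm.continuous.comp_continuousOn h1).mono (hrW.trans hWO)
  refine smo isOpen_ball hcont ?_ φ hL hc hs
  clear hs hc hL φ
  intro φ hφ hc hs
  have hsW : tsupport φ ⊆ W := hs.trans hrW
  have hint : Integrable fun y => ⟪gr h' y, gr φ y⟫ := flux_integrable hO hH.1 hφ hc (hsW.trans hWO)
  have hW1W : W1 ⊆ W \ S := by rw [hWS]; exact subset_union_left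
  have hW2W : W2 ⊆ W \ S := by rw [hWS]; exact subset_union_right
  have hsub : ∀ V : Set E, V ⊆ W \ S → V ⊆ (S ∪ S')ᶜ := by
    intro V hV y hy
    have h1 := hV hy
    have h2 := hWO h1.1
    rw [mem_compl_iff, mem_union]
    push Not
    exact ⟨h1.2, h2.2⟩
  have heqV : ∀ V : Set E, V ⊆ W \ S → ∀ y ∈ V, h y = h' y := by
    intro V hV y hy
    have h1 := hV hy
    have h2 := hWO h1.1
    exact heq y h2.1 h1.2 h2.2
  have hside1 : ∫ y in W1, ⟪gr h' y, gr φ y⟫ = 0 :=
    side_zero hS0 hWN hWO hW1o hW2o hdis hWS (heqV W1 hW1W) hφ hc hsW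
  have hside2 : ∫ y in W2, ⟪gr h' y, gr φ y⟫ = 0 :=
    side_zero hS0 hWN hWO hW2o hW1o hdis.symm (by rw [hWS, union_comm]) (heqV W2 hW2W) hφ hc hsW
  -- decomposition of integrals
  have hzero : ∀ y, y ∉ W → ⟪gr h' y, gr φ y⟫ = 0 := by
    intro y hy
    rw [gr_off fun h1 => hy (hsW h1), inner_zero_right]
  have hdec : ∀ A : Set E, MeasurableSet A → ∫ y in A, ⟪gr h' y, gr φ y⟫ =
      (∫ y in A ∩ W1, ⟪gr h' y, gr φ y⟫) + ∫ y in A ∩ W2, ⟪gr h' y, gr φ y⟫ := by
    intro A hA
    rw [← integral_indicator hA, ← integral_indicator (hA.inter hW1o.measurableSet),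
      ← integral_indicator (hA.inter hW2o.measurableSet), ← integral_add
      (hint.indicator (hA.inter hW1o.measurableSet)) (hint.indicator (hA.inter hW2o.measurableSet))]
    apply integral_congr_ae
    have h1 : ∀ᵐ y, y ∉ S := measure_eq_zero_iff_ae_notMem.1 hS0
    filter_upwards [h1] with y hyS
    by_cases hyW : y ∈ W
    · have h2 : y ∈ W1 ∪ W2 := hWS ▸ ⟨hyW, hyS⟩
      by_cases hyA : y ∈ A
      · rcases h2 with h3 | h3
        · have h4 : y ∉ W2 := fun h5 => (disjoint_left.1 hdis) h3 h5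
          rw [indicator_of_mem hyA, indicator_of_mem (show y ∈ A ∩ W1 from ⟨hyA, h3⟩),
            indicator_of_notMem (show y ∉ A ∩ W2 from fun h5 => h4 h5.2), add_zero]
        · have h4 : y ∉ W1 := fun h5 => (disjoint_left.1 hdis) h5 h3
          rw [indicator_of_mem hyA, indicator_of_mem (show y ∈ A ∩ W2 from ⟨hyA, h3⟩),
            indicator_of_notMem (show y ∉ A ∩ W1 from fun h5 => h4 h5.2), zero_add]
      · rw [indicator_of_notMem hyA, indicator_of_notMem (show y ∉ A ∩ W1 from fun h5 => hyA h5.1),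
          indicator_of_notMem (show y ∉ A ∩ W2 from fun h5 => hyA h5.1), add_zero]
    · have h3 := hzero y hyW
      simp only [indicator, h3, ite_self, add_zero]
  rw [hdec D hDo.measurableSet]
  have hcase : ∀ V : Set E, (V ⊆ D ∨ Disjoint V D) → ∫ y in V, ⟪gr h' y, gr φ y⟫ = 0 →
      ∫ y in D ∩ V, ⟪gr h' y, gr φ y⟫ = 0 := by
    rintro V (hV | hV) h0
    · rw [inter_eq_self_of_subset_right hV]; exact h0
    · rw [inter_comm, disjoint_iff_inter_eq_empty.1 hV, setIntegral_empty]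
  rw [hcase W1 (dich2 hDo hcl hp1 (hsub W1 hW1W)) hside1, hcase W2 (dich2 hDo hcl hp2 (hsub W2 hW2W)) hside2,
    add_zero]

end Pool.Agent.H92.CK
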