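import Mathlib
import Pool.Agent.H92.CK.Tools

/-!
# Pairs of insulating cracks of arbitrary genus: the theorem
-/

open MeasureTheory Set Filter Topology Metric
open scoped ENNReal NNReal ContDiff RealInnerProductSpace

namespace Pool.Agent.H92.CK

open Pool.Agent.H94.IC Pool.Agent.H94.AC

theorem pf_MainPairs (hFAM : T_FAM) (hFDC : T_FDC) (hCLO : T_CLO) (hPRT : T_PRT) (hHRP : T_HRP) (hEQN : T_EQN)
    (hSED : T_SED) (hCNT : T_CNT) (hRML : T_RML) (hNOX : T_NOX) (hSNJ : T_SNJ) (hTUB : T_TUB)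
    (hNLS : T_NLS) (hEDC : T_EDC) (hWNS : T_WNS) (hSQI : T_SQI) (hTAN : T_TAN) (hSIY : T_SIY) (hINC : T_INC)
    (hNTV : T_NTV) (hCNX : T_CNX) (hANC : T_ANC) (hCIR : T_CIR) : MainPairs := by
  intro Ω σ ν hD hσ
  obtain ⟨N, ψ, hF⟩ := hFAM Ω σ ν hD hσ
  refine ⟨N + 2, Fin.append ψ (prof2 ν), ?_, ?_⟩
  · intro i
    refine Fin.addCases (fun j => ?_) (fun j => ?_) i
    · rw [Fin.append_left]; exact hF.prof j
    · rw [Fin.append_right]; exact hPRT Ω σ ν hD hσ j
  -- volume and closedness of cracks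
  have hvol : ∀ S, IsCrack Ω S → volume S = 0 := fun S hS => (hEDC Ω S hS).2.2.2.2
  obtain ⟨i0, hi0⟩ := hF.nor 0
  obtain ⟨is, his⟩ := hF.special
  -- spreading
  have hspr : ∀ S S', IsCrack Ω S → IsCrack Ω S' → Spread Ω S S' →
      Distinguish Ω σ ν (Fin.append ψ (prof2 ν)) S S' := by
    intro S S' hS hS' hC
    have hS0 := hvol S hS
    have hS'0 := hvol S' hS'
    obtain ⟨L, hL, hcl⟩ := hC
    rcases hL with rfl | ⟨hL, hLS⟩
    · refine dist_right ?_
      intro u u' F F' τ τ' hu _ hu' _ hττ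
      choose h hh _ _ hsol using fun i => hHRP Ω S σ ν (prof2 ν i) (u i) (F i) (τ i) hD.op hD.bdd hσ hS.cpt
        hS.sub hS0 (hu i)
      choose h' hh' _ _ hsol' using fun i => hHRP Ω S' σ ν (prof2 ν i) (u' i) (F' i) (τ' i) hD.op hD.bdd hσ
        hS'.cpt hS'.sub hS'0 (hu' i)
      have heq := (hEQN 2 Ω S S' σ ν (prof2 ν) h h' τ τ' 0 hD hσ hS hS' rfl hh hsol hh' hsol' hττ).2
      exfalso
      refine hNOX Ω S σ ν h τ hD hσ hS hh hsol fun i p hp => ?_
      exact nj_spread hCNT hSNJ hCLO hD.op hD.bdd hS hS0 hS'.cpt.isClosed isClosed_empty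
        (hWNS Ω S σ ν (prof2 ν i) (h i) (τ i) hD.op hD.bdd hσ hS.cpt hS.sub (hh i) (hsol i)) (hh' i) (heq i)
        hcl p hp (notMem_empty p)
    · obtain ⟨Φ, δ, hT⟩ := hTUB Ω L hD.op hL
      obtain ⟨hL0, hLc, hLΩ⟩ := (hNLS Ω L).2 Φ δ hT
      refine dist_left ?_
      intro u u' F F' τ τ' hu hm hu' hm' hττ
      choose h hh _ _ hsol using fun i => hHRP Ω S σ ν (ψ i) (u i) (F i) (τ i) hD.op hD.bdd hσ hS.cpt
        hS.sub hS0 (hu i)
      choose h' hh' _ _ hsol' using fun i => hHRP Ω S' σ ν (ψ i) (u' i) (F' i) (τ' i) hD.op hD.bdd hσ hS'.cpt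
        hS'.sub hS'0 (hu' i)
      have heq := (hEQN N Ω S S' σ ν ψ h h' τ τ' i0 hD hσ hS hS' hi0 hh hsol hh' hsol' hττ).2
      have hNJ : ∀ i, ∀ p ∈ intPts S, p ∉ L → NJ Ω (h i) p := fun i =>
        nj_spread hCNT hSNJ hCLO hD.op hD.bdd hS hS0 hS'.cpt.isClosed hLc.isClosed
          (hWNS Ω S σ ν (ψ i) (h i) (τ i) hD.op hD.bdd hσ hS.cpt hS.sub (hh i) (hsol i)) (hh' i) (heq i) hcl
      have hsL : ∀ i, Sol Ω L σ ν (ψ i) (h i) (gr (h i)) (τ i) := fun i =>
        sol_L hLS (hsol i) (hRML Ω S L σ ν (h i) (τ i) hD.op hD.bdd hσ hS hLc (hNJ i) (hsol i).h)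
      have e1 : S = L := hFDC N Ω σ ν ψ hD hσ hF S L hS hL h h (fun i => gr (h i)) (fun i => gr (h i)) τ τ
        hsol hm hsL hm (fun i => EventuallyEq.rfl)
      have e2 : S' = L := hFDC N Ω σ ν ψ hD hσ hF S' L hS' hL h' h (fun i => gr (h' i)) (fun i => gr (h i)) τ' τ
        hsol' hm' hsL hm (fun i => (hττ i).symm)
      rw [e1, e2]
  -- tame cracks
  have hcon : ∀ S S', IsCrack Ω S → IsCrack Ω S' → Tame Ω S →
      Contain Ω σ ν (Fin.append ψ (prof2 ν)) S S' := by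
    intro S S' hS hS' hP u u' F F' τ τ' hu hm hu' hm' hττ
    have hS0 := hvol S hS
    have hS'0 := hvol S' hS'
    by_contra hn
    obtain ⟨p0, hp0S, hp0S'⟩ := not_subset.1 hn
    obtain ⟨p, hpS', hp⟩ := _root_.mem_closure_iff.1 (hSQI Ω S hS hp0S) S'ᶜ hS'.cpt.isClosed.isOpen_compl hp0S'
    have hu1 := sol_left hu
    have hu1' := sol_left hu'
    choose h hh _ _ hsol using fun i => hHRP Ω S σ ν (ψ i) _ _ _ hD.op hD.bdd hσ hS.cpt
      hS.sub hS0 (hu1 i)
    choose h' hh' _ _ hsol' using fun i => hHRP Ω S' σ ν (ψ i) _ _ _ hD.op hD.bdd hσ hS'.cpt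
      hS'.sub hS'0 (hu1' i)
    have heq := (hEQN N Ω S S' σ ν ψ h h' _ _ i0 hD hσ hS hS' hi0 hh hsol hh' hsol' (fun i => hττ _)).2
    obtain ⟨q, -, hqA, hqS'⟩ := ana_dense hTAN hSIY hINC hNTV hCNX hWNS hANC hD hσ hF hS hS' hh hsol hh' hsol'
      heq p hp hpS' univ isOpen_univ (mem_univ p)
    obtain ⟨C, hCA, hCp, hqC, L, hL, hcl⟩ := hP q hqA
    have hsp : Spread Ω S S' := by
      refine ⟨L, hL, fun x hx => ?_⟩
      rcases hcl hx with h1 | h1
      · refine Or.inl (closure_mono ?_ h1)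
        intro y hy
        exact Or.inr ⟨C, hCA, hCp, hy, q, hqC, hqS'⟩
      · exact Or.inr h1
    have e := hspr S S' hS hS' hsp u u' F F' τ τ' hu hm hu' hm' hττ
    exact hp0S' (e ▸ hp0S)
  -- the same edge
  have hedge : ∀ S S', IsCrack Ω S → IsCrack Ω S' → edgePts S = edgePts S' →
      Distinguish Ω σ ν (Fin.append ψ (prof2 ν)) S S' := by
    intro S S' hS hS' hE
    have hS0 := hvol S hS
    have hS'0 := hvol S' hS'
    refine dist_left ?_
    intro u u' F F' τ τ' hu _ hu' _ hττ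
    choose h hh _ _ hsol using fun i => hHRP Ω S σ ν (ψ i) (u i) (F i) (τ i) hD.op hD.bdd hσ hS.cpt
      hS.sub hS0 (hu i)
    choose h' hh' _ _ hsol' using fun i => hHRP Ω S' σ ν (ψ i) (u' i) (F' i) (τ' i) hD.op hD.bdd hσ hS'.cpt
      hS'.sub hS'0 (hu' i)
    have heq := (hEQN N Ω S S' σ ν ψ h h' τ τ' i0 hD hσ hS hS' hi0 hh hsol hh' hsol' hττ).2
    refine hSED Ω S S' σ ν ![h is, h i0] ![h' is, h' i0] ![τ is, τ i0] ![τ' is, τ' i0] hD hσ hS hS' hE
      ?_ ?_ ?_ ?_ ?_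
    · intro i
      fin_cases i
      · exact hh is
      · exact hh i0
    · intro i
      fin_cases i
      · have h1 := hsol is
        rw [his] at h1
        exact h1
      · have h1 := hsol i0
        rw [hi0] at h1
        exact h1
    · intro i
      fin_cases i
      · exact hh' is
      · exact hh' i0
    · intro i
      fin_cases i
      · have h1 := hsol' is
        rw [his] at h1
        exact h1
      · have h1 := hsol' i0
        rw [hi0] at h1
        exact h1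
    · intro i
      fin_cases i
      · exact heq is
      · exact heq i0
  -- the parts without analytic points
  have hNA : ∀ S S', IsCrack Ω S → IsCrack Ω S' → Same Ω σ ν (Fin.append ψ (prof2 ν)) S S' →
      intPts S \ closure (AnaPts S) ⊆ S' := by
    rintro S S' hS hS' ⟨u, u', F, F', τ, τ', hu, hm, hu', hm', hττ⟩ p ⟨hp, hpn⟩
    by_contra hpS'
    have hS0 := hvol S hS
    have hS'0 := hvol S' hS'
    have hu1 := sol_left hu
    have hu1' := sol_left hu'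
    choose h hh _ _ hsol using fun i => hHRP Ω S σ ν (ψ i) _ _ _ hD.op hD.bdd hσ hS.cpt
      hS.sub hS0 (hu1 i)
    choose h' hh' _ _ hsol' using fun i => hHRP Ω S' σ ν (ψ i) _ _ _ hD.op hD.bdd hσ hS'.cpt
      hS'.sub hS'0 (hu1' i)
    have heq := (hEQN N Ω S S' σ ν ψ h h' _ _ i0 hD hσ hS hS' hi0 hh hsol hh' hsol' (fun i => hττ _)).2
    obtain ⟨x, hx1, hx2, -⟩ := ana_dense hTAN hSIY hINC hNTV hCNX hWNS hANC hD hσ hF hS hS' hh hsol hh' hsol'
      heq p hp hpS' (closure (AnaPts S))ᶜ isClosed_closure.isOpen_compl hpn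
    exact hx1 (subset_closure hx2)
  intro S S' hS hsame
  have hsame' : Same Ω σ ν (Fin.append ψ (prof2 ν)) S' S := by
    obtain ⟨u, u', F, F', τ, τ', hu, hm, hu', hm', hττ⟩ := hsame
    exact ⟨u', u, F', F, τ', τ, hu', hm', hu, hm, fun i => (hττ i).symm⟩
  have hd : ∀ {T T' : Set E}, Same Ω σ ν (Fin.append ψ (prof2 ν)) T T' →
      Distinguish Ω σ ν (Fin.append ψ (prof2 ν)) T T' → T = T' := by
    rintro T T' ⟨u, u', F, F', τ, τ', hu, hm, hu', hm', hττ⟩ h
    exact h u u' F F' τ τ' hu hm hu' hm' hττ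
  have hc : ∀ {T T' : Set E}, Same Ω σ ν (Fin.append ψ (prof2 ν)) T T' →
      Contain Ω σ ν (Fin.append ψ (prof2 ν)) T T' → T ⊆ T' := by
    rintro T T' ⟨u, u', F, F', τ, τ', hu, hm, hu', hm', hττ⟩ h
    exact h u u' F F' τ τ' hu hm hu' hm' hττ
  refine ⟨fun hdi => hd hsame (dist_left (hFDC N Ω σ ν ψ hD hσ hF S S' hS hdi)), fun hS' =>
    ⟨hNA S S' hS hS' hsame, fun hP => hc hsame (hcon S S' hS hS' hP), ?_⟩⟩
  have hin : Tame Ω S → edgePts S' ⊆ S → S = S' := by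
    intro hP he
    have hsub : S ⊆ S' := hc hsame (hcon S S' hS hS' hP)
    have he2 : edgePts S' ⊆ edgePts S := by
      intro q hq
      rcases hS.chart q (he hq) with h1 | h1
      · exact (ein hsub h1.2 hq.2).elim
      · exact h1
    exact hd hsame (hedge S S' hS hS' (circle_sub hCIR hS.edge hS'.edge he2))
  rintro (⟨hP, hP' | hR | hE⟩ | hE | hC)
  · exact Subset.antisymm (hc hsame (hcon S S' hS hS' hP)) (hc hsame' (hcon S' S hS' hS hP'))
  · refine hin hP fun q hq => ?_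
    exact closure_minimal (hNA S' S hS' hS hsame') hS.cpt.isClosed (hR q hq)
  · exact hin hP hE
  · exact hd hsame (hedge S S' hS hS' hE)
  · exact hd hsame (hspr S S' hS hS' hC)

end Pool.Agent.H92.CK
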