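import Mathlib
import Pool.Agent.H94.AC.Assembly
import Pool.Agent.H92.CK.Final
import Pool.Agent.H89.CK.ACH
import Pool.Agent.H68.CK.ANC
import Pool.Agent.H68.CK.ANG
import Pool.Agent.H68.CK.EQN
import Pool.Agent.H49.CK.CNJ
import Pool.Agent.H49.CK.MOR
import Pool.Agent.H19.CK.CNT
import Pool.Agent.H19.CK.SCT
import Pool.Agent.H86.CK.FDC
import Pool.Agent.H74.CK.FMB
import Pool.Agent.H35.CK.H2W
import Pool.Agent.H51.CK.LSU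
import Pool.Agent.H50.CK.ORD
import Pool.Agent.H3.CK.RML
import Pool.Agent.H13.CK.SED
import Pool.Agent.H33.CK.OSG
import Pool.Agent.H94.CK.PUN
import Pool.Agent.H94.CK.TSC
import Pool.Agent.H92.CK.FFG

/-!
# Pairs of insulating cracks of arbitrary genus: assembly of the modules
-/

namespace Pool.Agent.H92.CK

open Pool.Agent.H94.IC Pool.Agent.H94.AC

theorem k_TBC : T_TBC := Pool.Agent.H29.ICA.tbc Pool.Agent.H56.ICA.dsj q_EDC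

theorem k_FMC : T_FMC := Pool.Agent.H4.ICA.fmc (Pool.Agent.H4.ICA.fml (fcl p_RG2) q_EDC) q_EDC k_TBC p_EDG

theorem k_NVO : T_NVO := Pool.Agent.H56.ICA.nvo p_HRX

theorem k_EQN : T_EQN :=
  Pool.Agent.H68.CK.pf_EQN p_UCX p_ENC p_FFE q_FMG k_NVO p_WNS Pool.Agent.H97.ICA.cnx q_EDC

theorem k_FDC : T_FDC := Pool.Agent.H86.CK.pf_FDC p_TUB p_NLS p_HRP p_EQL p_CSA p_CSB p_CSC

theorem k_ANC : T_ANC :=
  Pool.Agent.H68.CK.pf_ANC Pool.Agent.H33.CK.pf_OSG Pool.Agent.H50.CK.pf_ORD Pool.Agent.H89.CK.pf_ACH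

theorem k_TSC : T_TSC :=
  Pool.Agent.H94.CK.pf_TSC (Pool.Agent.H35.CK.pf_H2W p_RG1) (Pool.Agent.H49.CK.pf_MOR p_CUB)

theorem k_CNT : T_CNT := Pool.Agent.H19.CK.pf_CNT k_TSC Pool.Agent.H49.CK.pf_CNJ (njs p_WYL)

theorem k_RML : T_RML := Pool.Agent.H3.CK.pf_RML Pool.Agent.H57.ICA.cut k_TBC q_EDC

theorem k_LSU : T_LSU := Pool.Agent.H51.CK.pf_LSU q_EDC

theorem k_SCT : T_SCT :=
  Pool.Agent.H19.CK.pf_SCT k_LSU (Pool.Agent.H68.CK.pf_ANG k_LSU Pool.Agent.H56.ICA.dsj)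
    (Pool.Agent.H94.CK.pf_PUN Pool.Agent.H56.ICA.dsj) p_GLS q_EDC

theorem k_FMB : T_FMB := Pool.Agent.H74.CK.pf_FMB k_FMC p_HSM p_WNS

theorem k_FFG : T_FFG := pf_FFG q_EDC

theorem k_SED : T_SED :=
  Pool.Agent.H13.CK.pf_SED k_SCT k_FMB k_FFG p_FM3 q_FMG k_NVO p_PRO p_WNS Pool.Agent.H97.ICA.cnx q_EDC p_SQI

theorem k_Main : MainPairs :=
  pf_MainPairs p_FAM k_FDC q_CLO Pool.Agent.H29.ICA.prt p_HRP k_EQN k_SED k_CNT k_RML q_NOX Pool.Agent.H57.ICA.snj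
    p_TUB p_NLS q_EDC p_WNS p_SQI p_TAN p_SIY p_INC p_NTV Pool.Agent.H97.ICA.cnx k_ANC p_CIR

end Pool.Agent.H92.CK
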