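import Mathlib
import Pool.Agent.H92.CK.MNC

/-!
# Pairs of insulating cracks of arbitrary genus (MP_0ee698_an): the theorem
-/

open MeasureTheory Set Filter Topology Metric
open scoped ENNReal NNReal ContDiff RealInnerProductSpace

namespace Pool.Agent.H92.CK

open Pool.Agent.H94.IC Pool.Agent.H94.AC

/-- the interior points of `S` at which `S` is real-analytic -/
def AnaPts (S : Set E) : Set E := {p | p ∈ intPts S ∧ AChart S p}

/-- cracks of pure type: nowhere real-analytic in the interior, or the set of real-analytic interior points is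
connected and dense -/
def PureType (S : Set E) : Prop := AnaPts S = ∅ ∨ (IsPreconnected (AnaPts S) ∧ S ⊆ closure (AnaPts S))

/-- THE THEOREM -/
def T_MND : Prop := ∀ (Ω : Set E) (σ : Measure E) (ν : E → E), Dom Ω → IsSurf Ω σ ν →
  ∃ (N : ℕ) (ψ : Fin N → E → ℝ), (∀ i, IsProfile σ (ψ i)) ∧ ∀ S S' : Set E, IsCrack Ω S →
    (IsDisc Ω S' → Distinguish Ω σ ν ψ S S') ∧
    (IsCrack Ω S' → (PureType S → Contain Ω σ ν ψ S S') ∧
      (PureType S ∧ PureType S' ∨ edgePts S = edgePts S' ∨ CommonSmall Ω S S' → Distinguish Ω σ ν ψ S S'))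

theorem nj_open' (Ω : Set E) (h : E → ℝ) : IsOpen {p | NJ Ω h p} := by
  rw [Metric.isOpen_iff]
  rintro p ⟨r, hr, hb, hX⟩
  refine ⟨r, hr, fun q hq => ?_⟩
  rw [mem_ball] at hq
  have hsub : ball q (r - dist q p) ⊆ ball p r := by
    refine ball_subset_ball' ?_
    linarith
  exact ⟨r - dist q p, by linarith, hsub.trans hb, fun X h1 h2 h3 => hX X h1 h2 (h3.trans hsub)⟩

/-- cracks whose real-analytic points are dense and connected are contained in all cracks with the same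
measurements -/
theorem contain_dense (hHRP : T_HRP) (hEQN : T_EQN) (hCNT : T_CNT) (hNOX : T_NOX) (hSNJ : T_SNJ) (hCLO : T_CLO)
    (hSQI : T_SQI) (hEDC : T_EDC) (hWNS : T_WNS) {Ω : Set E} {σ : Measure E} {ν : E → E} (hD : Dom Ω)
    (hσ : IsSurf Ω σ ν) {S S' : Set E} (hS : IsCrack Ω S) (hS' : IsCrack Ω S') (hpre : IsPreconnected (AnaPts S))
    (hden : S ⊆ closure (AnaPts S)) : Contain Ω σ ν (prof2 ν) S S' := by
  intro u u' F F' τ τ' hu _ hu' _ hττ
  have hS0 : volume S = 0 := (hEDC Ω S hS).2.2.2.2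
  have hS'0 : volume S' = 0 := (hEDC Ω S' hS').2.2.2.2
  have hSc : IsClosed S := hS.cpt.isClosed
  have hS'c : IsClosed S' := hS'.cpt.isClosed
  choose h hh _ _ hsol using fun i => hHRP Ω S σ ν (prof2 ν i) (u i) (F i) (τ i) hD.op hD.bdd hσ hS.cpt
    hS.sub hS0 (hu i)
  choose h' hh' _ _ hsol' using fun i => hHRP Ω S' σ ν (prof2 ν i) (u' i) (F' i) (τ' i) hD.op hD.bdd hσ
    hS'.cpt hS'.sub hS'0 (hu' i)
  have heq := (hEQN 2 Ω S S' σ ν (prof2 ν) h h' τ τ' 0 hD hσ hS hS' rfl hh hsol hh' hsol' hττ).2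
  by_contra hnot
  obtain ⟨q, hq, hq'⟩ := not_subset.1 hnot
  -- a real-analytic point off `S'`
  obtain ⟨p, hp1, hp2⟩ := _root_.mem_closure_iff.1 (hden hq) S'ᶜ hS'c.isOpen_compl hq'
  have hpΩ : p ∈ Ω := hS.sub hp2.1.1
  obtain ⟨r, hr, hball⟩ := Metric.isOpen_iff.1 (hD.op.sdiff hS'c) p ⟨hpΩ, hp1⟩
  refine hNOX Ω S σ ν h τ hD hσ hS hh hsol fun i => ?_
  have hW : WN Ω S (h i) := hWNS Ω S σ ν (prof2 ν i) (h i) (τ i) hD.op hD.bdd hσ hS.cpt hS.sub (hh i) (hsol i)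
  have hNJp : NJ Ω (h i) p := by
    refine ⟨r, hr, hball.trans sdiff_subset, fun X h1 h2 h3 => ?_⟩
    exact hSNJ Ω S (h i) (h' i) p r X hD.op hSc hS0 (hball.trans sdiff_subset) ((hh' i).1.mono hball)
      (fun x hx hxS => heq i x (hball hx).1 hxS (hball hx).2) h1 h2 h3
  have hcl : ∀ q ∈ AnaPts S, q ∈ closure {q | q ∈ S ∧ NJ Ω (h i) q} → NJ Ω (h i) q := fun q hq hq' =>
    hCLO Ω S (h i) q hD.op hD.bdd hSc hS0 hW hq.1.1 (hS.sub hq.1.1) hq.2 hq'
  -- no jump at all real-analytic points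
  have hall : ∀ q ∈ AnaPts S, NJ Ω (h i) q := by
    intro q hq
    by_contra hnq
    have hU : IsOpen {q | NJ Ω (h i) q} := nj_open' Ω (h i)
    have hV : IsOpen (closure {q | q ∈ S ∧ NJ Ω (h i) q})ᶜ := isClosed_closure.isOpen_compl
    have key := hpre {q | NJ Ω (h i) q} (closure {q | q ∈ S ∧ NJ Ω (h i) q})ᶜ hU hV ?_
      ⟨p, hp2, hNJp⟩ ⟨q, hq, fun hc => hnq (hcl q hq hc)⟩
    · obtain ⟨z, hz, hz1, hz2⟩ := key
      exact hz2 (subset_closure ⟨hz.1.1, hz1⟩)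
    · intro z hz
      by_cases hc : z ∈ closure {q | q ∈ S ∧ NJ Ω (h i) q}
      · exact Or.inl (hcl z hz hc)
      · exact Or.inr hc
  have hsub : AnaPts S ⊆ {q | q ∈ S ∧ NJ Ω (h i) q} := fun w hw => ⟨hw.1.1, hall w hw⟩
  intro z hz
  exact hCNT Ω S (h i) z hD.op hD.bdd hSc hS0 hW hz (hS.sub hz.1)
    ⟨1, one_pos, fun y hy _ => closure_mono hsub (hden hy)⟩

theorem pf_MND (hFAM : T_FAM) (hFDC : T_FDC) (hCLO : T_CLO) (hPRT : T_PRT) (hHRP : T_HRP) (hEQN : T_EQN)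
    (hNAC : T_NAC) (hSED : T_SED) (hCNT : T_CNT) (hRML : T_RML) (hNOX : T_NOX) (hSNJ : T_SNJ) (hTUB : T_TUB)
    (hNLS : T_NLS) (hEDC : T_EDC) (hWNS : T_WNS) (hSQI : T_SQI) : T_MND := by
  intro Ω σ ν hD hσ
  obtain ⟨N, ψ, hF⟩ := hFAM Ω σ ν hD hσ
  refine ⟨N + 2, Fin.append ψ (prof2 ν), ?_, ?_⟩
  · intro i
    refine Fin.addCases (fun j => ?_) (fun j => ?_) i
    · rw [Fin.append_left]; exact hF.prof j
    · rw [Fin.append_right]; exact hPRT Ω σ ν hD hσ j
  -- volume and closedness of cracks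
  have hvol : ∀ S, IsCrack Ω S → volume S = 0 := fun S hS => (hEDC Ω S hS).2.2.2.2
  obtain ⟨i0, hi0⟩ := hF.nor 0
  obtain ⟨is, his⟩ := hF.special
  -- cracks of pure type
  have hcon : ∀ S S', IsCrack Ω S → IsCrack Ω S' → PureType S →
      Contain Ω σ ν (Fin.append ψ (prof2 ν)) S S' := by
    intro S S' hS hS' hP
    rcases hP with hP | ⟨hP1, hP2⟩
    · refine cont_left ?_
      intro u u' F F' τ τ' hu _ hu' _ hττ
      choose h hh _ _ hsol using fun i => hHRP Ω S σ ν (ψ i) (u i) (F i) (τ i) hD.op hD.bdd hσ hS.cpt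
        hS.sub (hvol S hS) (hu i)
      choose h' hh' _ _ hsol' using fun i => hHRP Ω S' σ ν (ψ i) (u' i) (F' i) (τ' i) hD.op hD.bdd hσ hS'.cpt
        hS'.sub (hvol S' hS') (hu' i)
      have heq := (hEQN N Ω S S' σ ν ψ h h' τ τ' i0 hD hσ hS hS' hi0 hh hsol hh' hsol' hττ).2
      refine hNAC N Ω S S' σ ν ψ h h' τ τ' hD hσ hF hS hS' hh hsol hh' hsol' heq (fun p hp hA => ?_)
      have h1 : p ∈ AnaPts S := ⟨hp, hA⟩
      rw [hP] at h1
      exact h1
    · exact cont_right (contain_dense hHRP hEQN hCNT hNOX hSNJ hCLO hSQI hEDC hWNS hD hσ hS hS' hP1 hP2)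
  intro S S' hS
  refine ⟨fun hd => dist_left (hFDC N Ω σ ν ψ hD hσ hF S S' hS hd), fun hS' => ⟨hcon S S' hS hS', ?_⟩⟩
  have hS0 := hvol S hS
  have hS'0 := hvol S' hS'
  rintro (⟨hP, hP'⟩ | hE | hC)
  · exact cont_antisymm (hcon S S' hS hS' hP) (hcon S' S hS' hS hP')
  · -- the same edge
    refine dist_left ?_
    intro u u' F F' τ τ' hu _ hu' _ hττ
    choose h hh _ _ hsol using fun i => hHRP Ω S σ ν (ψ i) (u i) (F i) (τ i) hD.op hD.bdd hσ hS.cpt
      hS.sub hS0 (hu i)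
    choose h' hh' _ _ hsol' using fun i => hHRP Ω S' σ ν (ψ i) (u' i) (F' i) (τ' i) hD.op hD.bdd hσ hS'.cpt
      hS'.sub hS'0 (hu' i)
    have heq := (hEQN N Ω S S' σ ν ψ h h' τ τ' i0 hD hσ hS hS' hi0 hh hsol hh' hsol' hττ).2
    refine hSED Ω S S' σ ν ![h is, h i0] ![h' is, h' i0] ![τ is, τ i0] ![τ' is, τ' i0] hD hσ hS hS' hE
      ?_ ?_ ?_ ?_ ?_
    · intro i
      fin_cases i
      · exact hh is
      · exact hh i0
    · intro i
      fin_cases i
      · have h1 := hsol is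
        rw [his] at h1
        exact h1
      · have h1 := hsol i0
        rw [hi0] at h1
        exact h1
    · intro i
      fin_cases i
      · exact hh' is
      · exact hh' i0
    · intro i
      fin_cases i
      · have h1 := hsol' is
        rw [his] at h1
        exact h1
      · have h1 := hsol' i0
        rw [hi0] at h1
        exact h1
    · intro i
      fin_cases i
      · exact heq is
      · exact heq i0
  · rcases hC with hC | ⟨L, hL, hLS, hc1, hc2⟩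
    · -- no open piece in common
      refine dist_right ?_
      intro u u' F F' τ τ' hu _ hu' _ hττ
      choose h hh _ _ hsol using fun i => hHRP Ω S σ ν (prof2 ν i) (u i) (F i) (τ i) hD.op hD.bdd hσ hS.cpt
        hS.sub hS0 (hu i)
      choose h' hh' _ _ hsol' using fun i => hHRP Ω S' σ ν (prof2 ν i) (u' i) (F' i) (τ' i) hD.op hD.bdd hσ
        hS'.cpt hS'.sub hS'0 (hu' i)
      have heq := (hEQN 2 Ω S S' σ ν (prof2 ν) h h' τ τ' 0 hD hσ hS hS' rfl hh hsol hh' hsol' hττ).2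
      exfalso
      refine hNOX Ω S σ ν h τ hD hσ hS hh hsol fun i p hp => ?_
      exact nj_off hCNT hSNJ hD.op hD.bdd hS hS0 hS'.cpt.isClosed isClosed_empty
        (hWNS Ω S σ ν (prof2 ν i) (h i) (τ i) hD.op hD.bdd hσ hS.cpt hS.sub (hh i) (hsol i)) (hh' i) (heq i)
        (fun p hp _ => hC p hp) p hp (notMem_empty p)
    · -- the common open pieces are contained in a disc
      obtain ⟨Φ, δ, hT⟩ := hTUB Ω L hD.op hL
      obtain ⟨hL0, hLc, hLΩ⟩ := (hNLS Ω L).2 Φ δ hT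
      refine dist_left ?_
      intro u u' F F' τ τ' hu hm hu' hm' hττ
      choose h hh _ _ hsol using fun i => hHRP Ω S σ ν (ψ i) (u i) (F i) (τ i) hD.op hD.bdd hσ hS.cpt
        hS.sub hS0 (hu i)
      choose h' hh' _ _ hsol' using fun i => hHRP Ω S' σ ν (ψ i) (u' i) (F' i) (τ' i) hD.op hD.bdd hσ hS'.cpt
        hS'.sub hS'0 (hu' i)
      have heq := (hEQN N Ω S S' σ ν ψ h h' τ τ' i0 hD hσ hS hS' hi0 hh hsol hh' hsol' hττ).2
      have hNJ : ∀ i, ∀ p ∈ intPts S, p ∉ L → NJ Ω (h i) p := fun i =>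
        nj_off hCNT hSNJ hD.op hD.bdd hS hS0 hS'.cpt.isClosed hLc.isClosed
          (hWNS Ω S σ ν (ψ i) (h i) (τ i) hD.op hD.bdd hσ hS.cpt hS.sub (hh i) (hsol i)) (hh' i) (heq i) hc1
      have hNJ' : ∀ i, ∀ p ∈ intPts S', p ∉ L → NJ Ω (h' i) p := fun i =>
        nj_off hCNT hSNJ hD.op hD.bdd hS' hS'0 hS.cpt.isClosed hLc.isClosed
          (hWNS Ω S' σ ν (ψ i) (h' i) (τ' i) hD.op hD.bdd hσ hS'.cpt hS'.sub (hh' i) (hsol' i)) (hh i)
          (fun x hx h1 h2 => (heq i x hx h2 h1).symm) hc2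
      rcases hLS with hLS | hLS
      · have hsL : ∀ i, Sol Ω L σ ν (ψ i) (h i) (gr (h i)) (τ i) := fun i =>
          sol_L hLS (hsol i) (hRML Ω S L σ ν (h i) (τ i) hD.op hD.bdd hσ hS hLc (hNJ i) (hsol i).h)
        have e1 : S = L := hFDC N Ω σ ν ψ hD hσ hF S L hS hL h h (fun i => gr (h i)) (fun i => gr (h i)) τ τ
          hsol hm hsL hm (fun i => EventuallyEq.rfl)
        have e2 : S' = L := hFDC N Ω σ ν ψ hD hσ hF S' L hS' hL h' h (fun i => gr (h' i)) (fun i => gr (h i)) τ' τ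
          hsol' hm' hsL hm (fun i => (hττ i).symm)
        rw [e1, e2]
      · have hsL : ∀ i, Sol Ω L σ ν (ψ i) (h' i) (gr (h' i)) (τ' i) := fun i =>
          sol_L hLS (hsol' i) (hRML Ω S' L σ ν (h' i) (τ' i) hD.op hD.bdd hσ hS' hLc (hNJ' i) (hsol' i).h)
        have e1 : S = L := hFDC N Ω σ ν ψ hD hσ hF S L hS hL h h' (fun i => gr (h i)) (fun i => gr (h' i)) τ τ'
          hsol hm hsL hm' hττ
        have e2 : S' = L := hFDC N Ω σ ν ψ hD hσ hF S' L hS' hL h' h' (fun i => gr (h' i)) (fun i => gr (h' i)) τ' τ'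
          hsol' hm' hsL hm' (fun i => EventuallyEq.rfl)
        rw [e1, e2]

end Pool.Agent.H92.CK
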